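import Pool.Agent.H74.MO.Defs

/-!
PROOF.  Fix `β, β' ∈ S`.  Level `s`: `T_s = {trunc (e s + 1) β'' | β'' ∈ S}` (finite, at most `N s` elements),
`O_s = {trunc (e s + 1) (σ β)} ⊆ T_s`.  Taking the coefficient `e s` maps `O_s` onto the conjugates of `b = coeff (e s) β`
over `κ`; their number is `(minpoly κ b).natDegree ≥ N s` (`K / κ` Galois: minpoly splits and is separable; every root is
`σ b`).  So `O_s = T_s` and `C_s = {σ | trunc (e s + 1) (σ β) = trunc (e s + 1) β'}` is not empty.  `C_s` is closed
(even open and closed) in `Gal(K/κ)` (Krull topology: it is a finite intersection of sets `{σ | σ x = y}`; such a set is closed: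
its complement and itself are unions of cosets of the open subgroup fixing `x`), decreasing in `s`,
`Gal(K/κ)` is compact (instance in Mathlib.FieldTheory.Galois.Profinite): the intersection is not empty
(`IsCompact.nonempty_iInter_of_sequence_nonempty_isCompact_isClosed` or the directed version).
-/

open PowerSeries

namespace Pool.Agent.H74.MO

private theorem trunc_iff {K : Type*} [Field K] (n : ℕ) (f g : K⟦X⟧) :
    trunc n f = trunc n g ↔ ∀ i < n, coeff i f = coeff i g := by
  constructor
  · intro h i hi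
    have := congrArg (fun q => Polynomial.coeff q i) h
    simpa [coeff_trunc, hi] using this
  · intro h
    ext i
    by_cases hi : i < n
    · simp [coeff_trunc, hi, h i hi]
    · simp [coeff_trunc, hi]

private theorem closed_eq {κ K : Type*} [Field κ] [Field K] [Algebra κ K] [IsGalois κ K] (x y : K) :
    IsClosed {σ : K ≃ₐ[κ] K | σ x = y} := by
  by_cases h : ∃ σ : K ≃ₐ[κ] K, σ x = y
  · obtain ⟨σ₀, h0⟩ := h
    have hfd : FiniteDimensional κ (IntermediateField.adjoin κ {x}) :=
      IntermediateField.adjoin.finiteDimensional (Algebra.IsIntegral.isIntegral x)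
    have hcl := IntermediateField.fixingSubgroup_isClosed (IntermediateField.adjoin κ {x})
    have heq : {σ : K ≃ₐ[κ] K | σ x = y} =
        (fun σ => σ₀⁻¹ * σ) ⁻¹' ((IntermediateField.adjoin κ {x}).fixingSubgroup : Set (K ≃ₐ[κ] K)) := by
      ext σ
      simp only [Set.mem_ofPred_eq, Set.mem_preimage, SetLike.mem_coe]
      rw [IntermediateField.mem_fixingSubgroup_iff]
      constructor
      · intro h1
        have hx : (σ₀⁻¹ * σ) x = x := by
          rw [AlgEquiv.mul_apply, h1, ← h0]
          exact σ₀.symm_apply_apply x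
        intro z hz
        have hle : IntermediateField.adjoin κ {x} ≤
            IntermediateField.fixedField (Subgroup.zpowers (σ₀⁻¹ * σ)) := by
          rw [IntermediateField.adjoin_simple_le_iff]
          rw [IntermediateField.mem_fixedField_iff]
          intro g hg
          obtain ⟨n, rfl⟩ := Subgroup.mem_zpowers_iff.mp hg
          have hs : (σ₀⁻¹ * σ) ∈ MulAction.stabilizer (K ≃ₐ[κ] K) x := hx
          exact Subgroup.zpow_mem _ hs n
        have := hle hz
        rw [IntermediateField.mem_fixedField_iff] at this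
        exact this _ (Subgroup.mem_zpowers _)
      · intro h1
        have := h1 x (IntermediateField.mem_adjoin_simple_self κ x)
        rw [AlgEquiv.mul_apply] at this
        have h2 := congrArg σ₀ this
        rw [h0] at h2
        rw [← h2]
        exact (σ₀.apply_symm_apply (σ x)).symm
    rw [heq]
    exact hcl.preimage (continuous_const.mul continuous_id)
  · have : {σ : K ≃ₐ[κ] K | σ x = y} = ∅ := by
      ext σ
      simp only [Set.mem_ofPred_eq, Set.mem_empty_iff_false, iff_false]
      exact fun h1 => h ⟨σ, h1⟩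
    rw [this]
    exact isClosed_empty

private theorem conj_card {κ K : Type*} [Field κ] [Field K] [Algebra κ K] [IsGalois κ K] (b : K) :
    (Set.range (fun σ : K ≃ₐ[κ] K => σ b)).Finite ∧
    (minpoly κ b).natDegree = (Set.range (fun σ : K ≃ₐ[κ] K => σ b)).ncard := by
  classical
  have hint : IsIntegral κ b := Algebra.IsIntegral.isIntegral b
  have hsep : (minpoly κ b).Separable := Algebra.IsSeparable.isSeparable κ b
  have hspl : ((minpoly κ b).map (algebraMap κ K)).Splits := Normal.splits inferInstance b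
  have hrange : Set.range (fun σ : K ≃ₐ[κ] K => σ b) = ((minpoly κ b).rootSet K) := by
    ext y
    rw [Polynomial.mem_rootSet_of_ne (minpoly.ne_zero hint)]
    constructor
    · rintro ⟨σ, rfl⟩
      have := Polynomial.aeval_algHom_apply (σ : K →ₐ[κ] K) b (minpoly κ b)
      rw [minpoly.aeval, map_zero] at this
      exact this
    · intro hy
      have hm : minpoly κ b = minpoly κ y :=
        minpoly.eq_of_irreducible_of_monic (minpoly.irreducible hint) hy (minpoly.monic hint)
      obtain ⟨σ, hσ⟩ := (Normal.minpoly_eq_iff_mem_orbit (F := κ) K (x := y) (y := b)).1 hm.symm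
      exact ⟨σ, hσ⟩
  rw [hrange]
  refine ⟨Polynomial.rootSet_finite _ _, ?_⟩
  rw [Set.ncard_eq_toFinset_card' , Set.toFinset_card]
  exact (Polynomial.card_rootSet_eq_natDegree hsep hspl).symm

theorem transitive {κ K : Type*} [Field κ] [Field K] [Algebra κ K] [IsGalois κ K] (S : Set K⟦X⟧)
    (hS : ∀ σ : K ≃ₐ[κ] K, ∀ β ∈ S, map (σ : K →+* K) β ∈ S) (e N : ℕ → ℕ) (he : StrictMono e)
    (hc : ∀ s, {t : Polynomial K | ∃ β ∈ S, trunc (e s + 1) β = t}.Finite ∧
      {t : Polynomial K | ∃ β ∈ S, trunc (e s + 1) β = t}.ncard ≤ N s)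
    (hd : ∀ β ∈ S, ∀ s, N s ≤ (minpoly κ (coeff (e s) β)).natDegree) :
    ∀ β ∈ S, ∀ β' ∈ S, ∃ σ : K ≃ₐ[κ] K, map (σ : K →+* K) β = β' := by
  classical
  intro β hβ β' hβ'
  let C : ℕ → Set (K ≃ₐ[κ] K) := fun s =>
    {σ | trunc (e s + 1) (map (σ : K →+* K) β) = trunc (e s + 1) β'}
  have hCeq : ∀ s, C s = ⋂ i ∈ Finset.range (e s + 1), {σ : K ≃ₐ[κ] K | σ (coeff i β) = coeff i β'} := by
    intro s
    ext σ
    simp only [C, Set.mem_ofPred_eq, Set.mem_iInter, Finset.mem_range]
    rw [trunc_iff]
    rfl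
  have hcl : ∀ s, IsClosed (C s) := by
    intro s
    rw [hCeq s]
    exact isClosed_biInter fun i _ => closed_eq _ _
  have hne : ∀ s, (C s).Nonempty := by
    intro s
    obtain ⟨hfin, hcard⟩ := hc s
    set T : Set (Polynomial K) := {t : Polynomial K | ∃ β ∈ S, trunc (e s + 1) β = t} with hT
    let O : Set (Polynomial K) :=
      Set.range (fun σ : K ≃ₐ[κ] K => trunc (e s + 1) (map (σ : K →+* K) β))
    have hOT : O ⊆ T := by
      rintro _ ⟨σ, rfl⟩
      exact ⟨_, hS σ β hβ, rfl⟩
    have hOfin : O.Finite := hfin.subset hOT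
    have hmaps : (fun q : Polynomial K => q.coeff (e s)) '' O =
        Set.range (fun σ : K ≃ₐ[κ] K => σ (coeff (e s) β)) := by
      ext y
      constructor
      · rintro ⟨_, ⟨σ, rfl⟩, rfl⟩
        refine ⟨σ, ?_⟩
        simp [coeff_trunc]
      · rintro ⟨σ, rfl⟩
        refine ⟨_, ⟨σ, rfl⟩, ?_⟩
        simp [coeff_trunc]
    have h1 : (Set.range (fun σ : K ≃ₐ[κ] K => σ (coeff (e s) β))).ncard ≤ O.ncard := by
      rw [← hmaps]
      exact Set.ncard_image_le hOfin
    have h2 := hd β hβ s
    rw [(conj_card (κ := κ) (coeff (e s) β)).2] at h2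
    have hTO : T.ncard ≤ O.ncard := hcard.trans (h2.trans h1)
    have hOT' : O = T := Set.eq_of_subset_of_ncard_le hOT hTO hfin
    have hb : trunc (e s + 1) β' ∈ O := by
      rw [hOT']
      exact ⟨β', hβ', rfl⟩
    obtain ⟨σ, hσ⟩ := hb
    exact ⟨σ, hσ⟩
  have hdec : ∀ s, C (s + 1) ⊆ C s := by
    intro s σ hσ
    have h1 : e s < e (s + 1) := he (Nat.lt_succ_self s)
    simp only [C, Set.mem_ofPred_eq] at hσ ⊢
    rw [trunc_iff] at hσ ⊢
    intro i hi
    exact hσ i (by omega)
  obtain ⟨σ, hσ⟩ := IsCompact.nonempty_iInter_of_sequence_nonempty_isCompact_isClosed C hdec hne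
    (hcl 0).isCompact hcl
  refine ⟨σ, ?_⟩
  ext n
  have h1 : σ ∈ C n := Set.mem_iInter.1 hσ n
  simp only [C, Set.mem_ofPred_eq] at h1
  rw [trunc_iff] at h1
  exact h1 n (Nat.lt_succ_of_le (he.id_le n))

end Pool.Agent.H74.MO
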