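import Pool.Agent.H74.MO.Defs

/-!
PROOF.  `P = ∑ i < N, a_i y ^ i`; for `a_i ≠ 0`: `v (a_i b ^ i) ^ N = τ ^ (N z_i + i)`, these are pairwise different
(`τ < 1`, `τ ≠ 0`: `z ↦ τ ^ z` is strictly decreasing; `N z + i = N z' + i'` with `i, i' < N` gives `i = i'`).
So exactly one term has the largest value and the sum is not `0` (`Valuation.map_sum_eq_of_lt` or induction).
-/

open PowerSeries

namespace Pool.Agent.H74.MO

theorem deg_lt {κ K : Type*} [Field κ] [Field K] [Algebra κ K]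
    {Γ₀ : Type*} [LinearOrderedCommGroupWithZero Γ₀] (v : Valuation K Γ₀) (τ : Γ₀)
    (h0 : τ ≠ 0) (h1 : τ < 1) (hκ : ∀ a : κ, a ≠ 0 → ∃ z : ℤ, v (algebraMap κ K a) = τ ^ z)
    (b : K) (N : ℕ) (hb : v b ^ N = τ) (P : Polynomial κ) (hP : P ≠ 0) (hd : P.natDegree < N) :
    Polynomial.aeval b P ≠ 0 := by
  have hz : ∀ i, P.coeff i ≠ 0 → ∃ z : ℤ, v (algebraMap κ K (P.coeff i)) = τ ^ z :=
    fun i hi => hκ _ hi
  have hN : 0 < N := lt_of_le_of_lt (Nat.zero_le _) hd
  have hpow : ∀ i, P.coeff i ≠ 0 → ∃ z : ℤ,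
      v (algebraMap κ K (P.coeff i) * b ^ i) ^ N = τ ^ ((N : ℤ) * z + i) := by
    intro i hi
    obtain ⟨z, hz⟩ := hz i hi
    refine ⟨z, ?_⟩
    rw [map_mul, map_pow, hz, mul_pow, ← pow_mul, mul_comm i N, pow_mul, hb, zpow_add₀ h0,
      zpow_natCast, mul_comm (N : ℤ) z, zpow_mul, zpow_natCast]
  have hinj : ∀ a c : ℤ, τ ^ a = τ ^ c → a = c := by
    intro a c h
    exact (zpow_right_strictAnti₀ (zero_lt_iff.mpr h0) h1).injective h
  have hne : P.support.Nonempty := Polynomial.support_nonempty.mpr hP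
  obtain ⟨i, hi, hmax⟩ := Finset.exists_max_image P.support
    (fun i => v (algebraMap κ K (P.coeff i) * b ^ i)) hne
  have hi0 : P.coeff i ≠ 0 := Polynomial.mem_support_iff.mp hi
  have hlt : ∀ j ∈ P.support.erase i, v (algebraMap κ K (P.coeff j) * b ^ j) <
      v (algebraMap κ K (P.coeff i) * b ^ i) := by
    intro j hj
    obtain ⟨hji, hj⟩ := Finset.mem_erase.mp hj
    refine lt_of_le_of_ne (hmax j hj) ?_
    intro heq
    obtain ⟨z, hz1⟩ := hpow i hi0
    obtain ⟨z', hz2⟩ := hpow j (Polynomial.mem_support_iff.mp hj)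
    rw [heq, hz1] at hz2
    have h3 := hinj _ _ hz2
    have h4 : i < N := lt_of_le_of_lt (Polynomial.le_natDegree_of_mem_supp i hi) hd
    have h5 : j < N := lt_of_le_of_lt (Polynomial.le_natDegree_of_mem_supp j hj) hd
    have h6 : ((N : ℤ) * z + i) % N = ((N : ℤ) * z' + j) % N := by rw [h3]
    rw [Int.mul_add_emod_self_left, Int.mul_add_emod_self_left,
      Int.emod_eq_of_lt (by positivity) (by exact_mod_cast h4),
      Int.emod_eq_of_lt (by positivity) (by exact_mod_cast h5)] at h6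
    exact hji (by exact_mod_cast h6.symm)
  have hpos : v (algebraMap κ K (P.coeff i) * b ^ i) ≠ 0 := by
    obtain ⟨z, hz1⟩ := hpow i hi0
    intro h
    rw [h, zero_pow (by omega)] at hz1
    exact zpow_ne_zero _ h0 hz1.symm
  intro h
  rw [Polynomial.aeval_eq_sum_range'  (lt_of_le_of_lt (le_refl _) (Nat.lt_succ_self _))] at h
  have h7 : ∑ j ∈ P.support, algebraMap κ K (P.coeff j) * b ^ j = 0 := by
    rw [← h]
    have h8 : P.support ⊆ Finset.range (P.natDegree + 1) := by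
      intro j hj
      rw [Finset.mem_range]
      exact Nat.lt_succ_of_le (Polynomial.le_natDegree_of_mem_supp j hj)
    rw [← Finset.sum_subset h8]
    · apply Finset.sum_congr rfl
      intro j _
      rw [Algebra.smul_def]
    · intro j _ hj
      rw [Polynomial.notMem_support_iff.mp hj, zero_smul]
  rw [← Finset.add_sum_erase _ _ hi] at h7
  have h9 : v (∑ j ∈ P.support.erase i, algebraMap κ K (P.coeff j) * b ^ j) <
      v (algebraMap κ K (P.coeff i) * b ^ i) :=
    Valuation.map_sum_lt v hpos hlt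
  have h10 := Valuation.map_add_eq_of_lt_left v h9
  rw [h7, map_zero] at h10
  exact hpos h10.symm

theorem deg_minpoly {κ K : Type*} [Field κ] [Field K] [Algebra κ K] [Algebra.IsAlgebraic κ K]
    {Γ₀ : Type*} [LinearOrderedCommGroupWithZero Γ₀] (v : Valuation K Γ₀) (τ : Γ₀)
    (h0 : τ ≠ 0) (h1 : τ < 1) (hκ : ∀ a : κ, a ≠ 0 → ∃ z : ℤ, v (algebraMap κ K a) = τ ^ z)
    (b : K) (N : ℕ) (hb : v b ^ N = τ) : N ≤ (minpoly κ b).natDegree := by
  by_contra h
  push Not at h
  exact deg_lt v τ h0 h1 hκ b N hb (minpoly κ b)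
    (minpoly.ne_zero (Algebra.IsAlgebraic.isAlgebraic b).isIntegral) h (minpoly.aeval κ b)

end Pool.Agent.H74.MO
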