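import Pool.Agent.H74.MO.Defs

/-!
PROOF.  `A` = image of `k⟦X⟧` in `K` (a subring), `I` = the ideal of `A` generated by the image of `X`, `I ≠ ⊤`
(`X` is not a unit, `k⟦X⟧ → K` is injective).  `Ideal.image_subset_nonunits_valuationSubring` gives `B ≥ A` with the image of
`X` in `B.nonunits`; `v = B.valuation`.  A non-zero `a` of `LaurentSeries k` is `X ^ z * (unit of k⟦X⟧)`
(`LaurentSeries` = localisation of `k⟦X⟧` away from `X`; or `a = f / g`, `f = X ^ n * unit`); units of `k⟦X⟧` have value `1`.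
-/

open PowerSeries

namespace Pool.Agent.H74.MO

theorem exists_val (k : Type*) [Field k] (K : Type*) [Field K] [Algebra (LaurentSeries k) K] :
    ∃ B : ValuationSubring K,
      B.valuation (algebraMap (LaurentSeries k) K ((X : k⟦X⟧) : LaurentSeries k)) ≠ 0 ∧
      B.valuation (algebraMap (LaurentSeries k) K ((X : k⟦X⟧) : LaurentSeries k)) < 1 ∧
      (∀ f : k⟦X⟧, B.valuation (algebraMap (LaurentSeries k) K (f : LaurentSeries k)) ≤ 1) ∧
      (∀ f : k⟦X⟧, constantCoeff f ≠ 0 →
        B.valuation (algebraMap (LaurentSeries k) K (f : LaurentSeries k)) = 1) ∧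
      ∀ a : LaurentSeries k, a ≠ 0 → ∃ z : ℤ, B.valuation (algebraMap (LaurentSeries k) K a) =
        B.valuation (algebraMap (LaurentSeries k) K ((X : k⟦X⟧) : LaurentSeries k)) ^ z := by
  let φ : k⟦X⟧ →+* K :=
    (algebraMap (LaurentSeries k) K).comp (HahnSeries.ofPowerSeries ℤ k)
  have hφ : Function.Injective φ := fun f g h =>
    HahnSeries.ofPowerSeries_injective ((algebraMap (LaurentSeries k) K).injective h)
  have hX : φ X ∈ φ.range := ⟨X, rfl⟩
  have hI : Ideal.span {(⟨φ X, hX⟩ : φ.range)} ≠ ⊤ := by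
    intro h
    have h1 : (1 : φ.range) ∈ Ideal.span {(⟨φ X, hX⟩ : φ.range)} := by
      rw [h]
      exact Submodule.mem_top
    obtain ⟨⟨a, g, hg⟩, ha⟩ := Ideal.mem_span_singleton'.1 h1
    have h2 : a * φ X = 1 := congrArg Subtype.val ha
    have h3 : φ (g * X) = φ 1 := by
      rw [map_mul, map_one, hg, h2]
    have h4 : g * X = 1 := hφ h3
    have h5 : IsUnit (constantCoeff (X : k⟦X⟧)) :=
      PowerSeries.isUnit_constantCoeff X (IsUnit.of_mul_eq_one_right g h4)
    rw [PowerSeries.constantCoeff_X] at h5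
    exact not_isUnit_zero h5
  obtain ⟨B, hB, hB'⟩ := Ideal.image_subset_nonunits_valuationSubring _ hI
  have hle : ∀ f : k⟦X⟧, B.valuation (φ f) ≤ 1 := fun f =>
    (B.valuation_le_one_iff _).2 (hB ⟨f, rfl⟩)
  have hun : ∀ f : k⟦X⟧, constantCoeff f ≠ 0 → B.valuation (φ f) = 1 := by
    intro f hf
    obtain ⟨g, hg⟩ := isUnit_iff_exists_inv.1 (PowerSeries.isUnit_iff_constantCoeff.2 hf.isUnit)
    have h1 : B.valuation (φ f) * B.valuation (φ g) = 1 := by
      rw [← map_mul, ← map_mul, hg, map_one, map_one]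
    refine le_antisymm (hle f) ?_
    calc (1 : B.ValueGroup) = B.valuation (φ f) * B.valuation (φ g) := h1.symm
      _ ≤ B.valuation (φ f) * 1 := mul_le_mul_right (hle g) _
      _ = B.valuation (φ f) := mul_one _
  have hX0 : (X : k⟦X⟧) ≠ 0 := PowerSeries.X_ne_zero
  refine ⟨B, ?_, ?_, hle, hun, fun a ha => ⟨a.order, ?_⟩⟩
  · refine (Valuation.ne_zero_iff _).2 fun h => hX0 (hφ ?_)
    rw [map_zero]
    exact h
  · exact (B.mem_nonunits_iff).1 (hB' ⟨⟨φ X, hX⟩, Ideal.subset_span rfl, rfl⟩)
  · have h1 : constantCoeff (LaurentSeries.powerSeriesPart a) ≠ 0 := by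
      rw [← PowerSeries.coeff_zero_eq_constantCoeff_apply, LaurentSeries.powerSeriesPart_coeff]
      intro h
      refine HahnSeries.coeff_order_eq_zero.not.2 ha ?_
      rw [← h]
      norm_num
    have h2 := hun _ h1
    have h3 : a = (HahnSeries.ofPowerSeries ℤ k X) ^ a.order *
        HahnSeries.ofPowerSeries ℤ k (LaurentSeries.powerSeriesPart a) := by
      rw [HahnSeries.ofPowerSeries_X, ← RatFunc.single_zpow]
      exact (LaurentSeries.single_order_mul_powerSeriesPart a).symm
    calc B.valuation (algebraMap (LaurentSeries k) K a)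
        = B.valuation (algebraMap (LaurentSeries k) K ((HahnSeries.ofPowerSeries ℤ k X) ^ a.order *
          HahnSeries.ofPowerSeries ℤ k (LaurentSeries.powerSeriesPart a))) := by rw [← h3]
      _ = B.valuation (algebraMap (LaurentSeries k) K
          (HahnSeries.ofPowerSeries ℤ k X)) ^ a.order * B.valuation (φ
          (LaurentSeries.powerSeriesPart a)) := by
          rw [map_mul, map_zpow₀, map_mul, map_zpow₀]
          rfl
      _ = _ := by rw [h2, mul_one]

end Pool.Agent.H74.MO
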