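import Pool.Agent.H74.MO.Defs

/-!
PROOF.  `cnt`: induction on `i`; the truncation at `i + 1` is determined by the truncation at `i` and the coefficient `i`;
for each truncation at `i` choose one `β` of `S` with it.  `prod_cnt`: for `p ≥ 2`, the product over `j ≤ p ^ s` of
`1` (`j = 0`), `q - 1` (`j = 1`), `q` (`j = p ^ a`, `a ≥ 1`), `1` (otherwise) is `(q - 1) q ^ s`.
-/

open PowerSeries

namespace Pool.Agent.H74.MO

theorem cnt {K : Type*} [Field K] (S : Set K⟦X⟧) (n : ℕ → ℕ)
    (hn : ∀ i, ∀ β ∈ S, {c : K | ∃ β' ∈ S, (∀ j < i, coeff j β' = coeff j β) ∧ coeff i β' = c}.Finite ∧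
      {c : K | ∃ β' ∈ S, (∀ j < i, coeff j β' = coeff j β) ∧ coeff i β' = c}.ncard ≤ n i) (i : ℕ) :
    {t : Polynomial K | ∃ β ∈ S, trunc i β = t}.Finite ∧
      {t : Polynomial K | ∃ β ∈ S, trunc i β = t}.ncard ≤ ∏ j ∈ Finset.range i, n j := by
  induction i with
  | zero =>
    have h : {t : Polynomial K | ∃ β ∈ S, trunc 0 β = t} ⊆ {0} := by
      rintro t ⟨β, _, rfl⟩
      exact trunc_zero'
    refine ⟨(Set.finite_singleton _).subset h, ?_⟩
    rw [Finset.prod_range_zero]
    exact (Set.ncard_le_ncard h (Set.finite_singleton _)).trans (Set.ncard_singleton _).le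
  | succ i ih =>
    obtain ⟨hfin, hcard⟩ := ih
    have hex : ∀ t : Polynomial K, ∃ β : K⟦X⟧, (∃ β ∈ S, trunc i β = t) → β ∈ S ∧ trunc i β = t := by
      intro t
      by_cases h : ∃ β ∈ S, trunc i β = t
      · obtain ⟨β, hβ⟩ := h
        exact ⟨β, fun _ => hβ⟩
      · exact ⟨0, fun h' => absurd h' h⟩
    choose b hb using hex
    let C : Polynomial K → Set K := fun t =>
      {c : K | ∃ β' ∈ S, (∀ j < i, coeff j β' = coeff j (b t)) ∧ coeff i β' = c}
    let F : Polynomial K → Set (Polynomial K) := fun t =>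
      (fun c => t + Polynomial.monomial i c) '' C t
    have hsub : {t : Polynomial K | ∃ β ∈ S, trunc (i + 1) β = t} ⊆
        ⋃ t ∈ hfin.toFinset, F t := by
      rintro t ⟨β, hβ, rfl⟩
      rw [Set.mem_iUnion₂]
      refine ⟨trunc i β, hfin.mem_toFinset.2 ⟨β, hβ, rfl⟩, coeff i β, ⟨β, hβ, ?_, rfl⟩, ?_⟩
      · intro j hj
        have h1 := (hb (trunc i β) ⟨β, hβ, rfl⟩).2
        have h2 := congrArg (fun p : Polynomial K => p.coeff j) h1
        simp only [coeff_trunc, if_pos hj] at h2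
        exact h2.symm
      · exact (trunc_succ β i).symm
    have hF : ∀ t ∈ hfin.toFinset, (F t).Finite ∧ (F t).ncard ≤ n i := by
      intro t ht
      have h1 := hb t (hfin.mem_toFinset.1 ht)
      have h2 := hn i (b t) h1.1
      exact ⟨h2.1.image _, (Set.ncard_image_le h2.1).trans h2.2⟩
    have hUfin : (⋃ t ∈ hfin.toFinset, F t).Finite :=
      Set.Finite.biUnion (Finset.finite_toSet _) fun t ht => (hF t ht).1
    refine ⟨hUfin.subset hsub, ?_⟩
    calc {t : Polynomial K | ∃ β ∈ S, trunc (i + 1) β = t}.ncard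
        ≤ (⋃ t ∈ hfin.toFinset, F t).ncard := Set.ncard_le_ncard hsub hUfin
      _ ≤ ∑ t ∈ hfin.toFinset, (F t).ncard := Finset.set_ncard_biUnion_le _ _
      _ ≤ ∑ _t ∈ hfin.toFinset, n i := Finset.sum_le_sum fun t ht => (hF t ht).2
      _ = hfin.toFinset.card * n i := by rw [Finset.sum_const, smul_eq_mul]
      _ ≤ (∏ j ∈ Finset.range i, n j) * n i := by
          refine Nat.mul_le_mul_right _ ?_
          rwa [← Set.ncard_eq_toFinset_card _ hfin]
      _ = ∏ j ∈ Finset.range (i + 1), n j := (Finset.prod_range_succ _ _).symm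

open Classical in
theorem prod_cnt {p : ℕ} (hp : p.Prime) (q s : ℕ) :
    ∏ j ∈ Finset.range (p ^ s + 1),
      (if j = 1 then q - 1 else if ∃ a : ℕ, 1 ≤ a ∧ j = p ^ a then q else 1) = (q - 1) * q ^ s := by
  induction s with
  | zero =>
    have h0 : ¬ ∃ a : ℕ, 1 ≤ a ∧ 0 = p ^ a := by
      rintro ⟨a, _, h⟩
      exact (pow_pos hp.pos a).ne' h.symm
    rw [pow_zero, Finset.prod_range_succ, Finset.prod_range_one, if_neg (by norm_num), if_neg h0,
      if_pos rfl, pow_zero, one_mul, mul_one]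
  | succ s ih =>
    have hlt : p ^ s < p ^ (s + 1) := Nat.pow_lt_pow_right hp.one_lt (Nat.lt_succ_self s)
    have h1 : 1 ≤ p ^ s := Nat.one_le_pow _ _ hp.pos
    rw [← Finset.prod_range_mul_prod_Ico _ (by omega : p ^ s + 1 ≤ p ^ (s + 1) + 1), ih,
      Finset.prod_eq_single (p ^ (s + 1))]
    · rw [if_neg (by omega), if_pos ⟨s + 1, by omega, rfl⟩, pow_succ, mul_assoc]
    · intro j hj hne
      rw [Finset.mem_Ico] at hj
      rw [if_neg (by omega), if_neg]
      rintro ⟨a, _, ha⟩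
      have h2 : s < a := (Nat.pow_lt_pow_iff_right hp.one_lt).1 (by omega)
      have h3 : a < s + 1 := (Nat.pow_lt_pow_iff_right hp.one_lt).1 (by omega)
      omega
    · intro h
      exact absurd (Finset.mem_Ico.2 ⟨by omega, by omega⟩) h

end Pool.Agent.H74.MO
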