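import Pool.Agent.H74.MO.Pw

/-!
PROOF.  Choose `b_j` recursively: `b_0 = 0`, `b_1` a non-zero root of `Y ^ q - w_1 Y` (separable, as `w_1 ≠ 0`, `q ≥ 2`, so it
has `q` different roots), `b_j` a root of `Y ^ q - w_1 ^ j Y - c_j`, `c_j = ∑ i < j, b_i [y ^ j] W ^ i` (separable since the
derivative is the constant `- w_1 ^ j ≠ 0`; `IsSepClosed.exists_root`; see also
`IsSepClosed.exists_root_C_mul_X_pow_add_C_mul_X_add_C`).  Strong recursion: build a function on finite
lists or use `∃ b : ℕ → K, ∀ j, R j (fun i : Fin j => b i) (b j)` (well-founded recursion with `Classical.choose`).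
`coeff j (β.subst W) = ∑ i ∈ Icc 1 j, b_i * coeff j (W ^ i)` for `j ≥ 1` is `coeff_subst_eq`.
-/

open PowerSeries

namespace Pool.Agent.H74.MO

theorem coeff_subst_eq {R : Type*} [CommRing R] {W : R⟦X⟧} (h : coeff 0 W = 0) (f : R⟦X⟧)
    (j : ℕ) : coeff j (f.subst W : R⟦X⟧) = ∑ i ∈ Finset.range (j + 1), coeff i f * coeff j (W ^ i) := by
  have hs : HasSubst W := HasSubst.of_constantCoeff_zero' (by
    rw [← coeff_zero_eq_constantCoeff_apply]
    exact h)
  rw [coeff_subst' hs]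
  simp only [smul_eq_mul]
  refine finsum_eq_sum_of_support_subset _ fun i hi => ?_
  rw [Finset.coe_range, Set.mem_Iio]
  by_contra hc
  apply hi
  change coeff i f * coeff j (W ^ i) = 0
  rw [coeff_pow_lt h (by omega), mul_zero]

theorem coeff_subst_eq_Icc {R : Type*} [CommRing R] {W : R⟦X⟧} (h : coeff 0 W = 0) (f : R⟦X⟧)
    (hf : coeff 0 f = 0) (j : ℕ) :
    coeff j (f.subst W : R⟦X⟧) = ∑ i ∈ Finset.Icc 1 j, coeff i f * coeff j (W ^ i) := by
  rw [coeff_subst_eq h]
  symm
  apply Finset.sum_subset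
  · intro i hi
    rw [Finset.mem_Icc] at hi
    rw [Finset.mem_range]
    omega
  · intro i hi hi2
    rw [Finset.mem_range] at hi
    rw [Finset.mem_Icc] at hi2
    have h0 : i = 0 := by omega
    rw [h0, hf, zero_mul]

/-- recursive choice -/
private theorem rec_choice {K : Type*} [Zero K] {R : ℕ → (ℕ → K) → K → Prop}
    (hR : ∀ j F, 1 ≤ j → ∃ y, R j F y)
    (hc : ∀ j F G y, (∀ i, i < j → F i = G i) → R j F y → R j G y) :
    ∃ b : ℕ → K, b 0 = 0 ∧ ∀ j, 1 ≤ j → R j b (b j) := by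
  have h1 : ∀ j F, ∃ y, 1 ≤ j → R j F y := by
    intro j F
    by_cases hj : 1 ≤ j
    · obtain ⟨y, hy⟩ := hR j F hj
      exact ⟨y, fun _ => hy⟩
    · exact ⟨0, fun h => absurd h hj⟩
  choose g hg using h1
  let f : ℕ → ℕ → K := fun n => Nat.rec (fun _ => 0) (fun n F => Function.update F (n + 1) (g (n + 1) F)) n
  have hf0 : f 0 = fun _ => 0 := rfl
  have hfs : ∀ n, f (n + 1) = Function.update (f n) (n + 1) (g (n + 1) (f n)) := fun n => rfl
  have hst : ∀ n i, i ≤ n → f n i = f i i := by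
    intro n
    induction n with
    | zero =>
      intro i hi
      have : i = 0 := by omega
      rw [this]
    | succ n ih =>
      intro i hi
      rcases Nat.lt_or_ge n i with h | h
      · have : i = n + 1 := by omega
        rw [this]
      · rw [hfs, Function.update_of_ne (by omega)]
        exact ih i h
  refine ⟨fun j => f j j, rfl, fun j hj => ?_⟩
  obtain ⟨n, rfl⟩ : ∃ n, j = n + 1 := ⟨j - 1, by omega⟩
  have h2 : f (n + 1) (n + 1) = g (n + 1) (f n) := by
    rw [hfs, Function.update_self]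
  change R (n + 1) (fun j => f j j) (f (n + 1) (n + 1))
  rw [h2]
  refine hc (n + 1) (f n) _ _ (fun i hi => hst n i (by omega)) (hg (n + 1) (f n) (by omega))

theorem exists_sol {K : Type*} [Field K] [IsSepClosed K] (p : ℕ) [Fact p.Prime] [CharP K p]
    {m : ℕ} (hm : 1 ≤ m) {W : K⟦X⟧} (h0 : coeff 0 W = 0) (h1 : coeff 1 W ≠ 0) :
    ∃ β : K⟦X⟧, coeff 0 β = 0 ∧ coeff 1 β ≠ 0 ∧
      (β.subst W : K⟦X⟧) = map (iterateFrobenius K p m) β := by
  have hp : p.Prime := Fact.out
  have hq2 : 2 ≤ p ^ m := by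
    calc 2 ≤ p ^ 1 := by rw [pow_one]; exact hp.two_le
      _ ≤ p ^ m := Nat.pow_le_pow_right hp.pos hm
  have hpq : p ∣ p ^ m := dvd_pow_self p (by omega)
  obtain ⟨b, hb0, hb⟩ := rec_choice (K := K)
    (R := fun j F y => (j = 1 → y ≠ 0) ∧
      ∑ i ∈ Finset.Ico 1 j, F i * coeff j (W ^ i) + y * coeff j (W ^ j) = y ^ p ^ m) (by
    intro j F hj
    rcases Nat.lt_or_ge 1 j with hj1 | hj1
    · obtain ⟨x, hx⟩ := IsSepClosed.exists_root_C_mul_X_pow_add_C_mul_X_add_C' p (p ^ m) (1 : K)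
        (-(coeff 1 W ^ j)) (-(∑ i ∈ Finset.Ico 1 j, F i * coeff j (W ^ i))) hpq hq2
        (neg_ne_zero.2 (pow_ne_zero j h1))
      refine ⟨x, fun h => absurd h (by omega), ?_⟩
      rw [coeff_pow_self h0]
      linear_combination -hx
    · have hj2 : j = 1 := by omega
      subst hj2
      have hne : NeZero ((p ^ m - 1 : ℕ) : K) := by
        refine ⟨?_⟩
        rw [Nat.cast_sub (by omega), Nat.cast_pow, CharP.cast_eq_zero K p, zero_pow (by omega),
          Nat.cast_one, zero_sub]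
        exact neg_ne_zero.2 one_ne_zero
      obtain ⟨z, hz⟩ := IsSepClosed.exists_pow_nat_eq (coeff 1 W) (p ^ m - 1)
      refine ⟨z, fun _ hz0 => ?_, ?_⟩
      · rw [hz0, zero_pow (by omega)] at hz
        exact h1 hz.symm
      · rw [Finset.Ico_self, Finset.sum_empty, zero_add, pow_one, ← hz, ← pow_succ']
        congr 1
        omega) (by
    intro j F G y hFG h
    refine ⟨h.1, ?_⟩
    rw [← h.2]
    congr 1
    refine Finset.sum_congr rfl fun i hi => ?_
    rw [hFG i (Finset.mem_Ico.1 hi).2])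
  have hc0 : coeff 0 (PowerSeries.mk b) = 0 := by rw [coeff_mk, hb0]
  refine ⟨PowerSeries.mk b, hc0, ?_, ?_⟩
  · rw [coeff_mk]
    exact (hb 1 le_rfl).1 rfl
  · ext j
    rw [coeff_subst_eq_Icc h0 _ hc0, coeff_map, iterateFrobenius_def, coeff_mk]
    rcases Nat.eq_zero_or_pos j with hj | hj
    · rw [hj, hb0, zero_pow (by omega)]
      rfl
    · rw [← (hb j hj).2, ← Finset.Ico_insert_right hj, Finset.sum_insert Finset.right_notMem_Ico, add_comm,
        coeff_mk]
      congr 1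
      exact Finset.sum_congr rfl fun i _ => by rw [coeff_mk]

end Pool.Agent.H74.MO
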