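import Pool.Agent.H74.MO.Lead
import Pool.Agent.H74.MO.Sol
import Pool.Agent.H74.MO.Cnt

/-!
PROOF.  For `β, β' ∈ S` which agree below `i`, `d = coeff i β' - coeff i β`: by `coeff_subst_eq` the relation gives
`d ^ q = w_1 ^ i d` (all other terms agree; `(a - b) ^ q = a ^ q - b ^ q`): at most `q` values of `d` (roots of
`Y ^ q - w_1 ^ i Y`).  `i = 1`: `b_1 ^ q = w_1 b_1`, `b_1 ≠ 0`: at most `q - 1` values.  `i = 0`: the value is `0`.
`i` not a power of `p`: `eq_of_not_pow`.
-/

open PowerSeries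

namespace Pool.Agent.H74.MO

open Pool.Agent.H13.CA

private theorem fin_of {L : Type*} {T : Set L} {t : Finset L} {n : ℕ} (h : ∀ c ∈ T, c ∈ t)
    (hn : t.card ≤ n) : T.Finite ∧ T.ncard ≤ n := by
  have hs : T ⊆ (t : Set L) := fun c hc => Finset.mem_coe.2 (h c hc)
  refine ⟨t.finite_toSet.subset hs, ?_⟩
  refine (Set.ncard_le_ncard hs t.finite_toSet).trans ?_
  rw [Set.ncard_coe_finset]
  exact hn

private theorem rel {L : Type*} [Field L] (p : ℕ) [Fact p.Prime] [CharP L p] {h : ℕ}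
    {W β β' : L⟦X⟧} (h0 : coeff 0 W = 0)
    (hβ : (β.subst W : L⟦X⟧) = map (iterateFrobenius L p h) β)
    (hβ' : (β'.subst W : L⟦X⟧) = map (iterateFrobenius L p h) β') {i : ℕ}
    (hl : ∀ j < i, coeff j β' = coeff j β) :
    coeff i β' ^ p ^ h - coeff 1 W ^ i * coeff i β' =
      coeff i β ^ p ^ h - coeff 1 W ^ i * coeff i β := by
  have e1 := congrArg (coeff i) hβ
  have e2 := congrArg (coeff i) hβ'
  rw [coeff_subst_eq h0, coeff_map, iterateFrobenius_def, Finset.sum_range_succ,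
    coeff_pow_self h0] at e1 e2
  have hs : ∑ j ∈ Finset.range i, coeff j β' * coeff i (W ^ j) =
      ∑ j ∈ Finset.range i, coeff j β * coeff i (W ^ j) :=
    Finset.sum_congr rfl fun j hj => by rw [hl j (Finset.mem_range.1 hj)]
  linear_combination hs + e1 - e2

private theorem rel_one {L : Type*} [Field L] (p : ℕ) [Fact p.Prime] [CharP L p] {h : ℕ}
    {W β : L⟦X⟧} (h0 : coeff 0 W = 0) (hb : coeff 0 β = 0) (hb1 : coeff 1 β ≠ 0)
    (hβ : (β.subst W : L⟦X⟧) = map (iterateFrobenius L p h) β) :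
    coeff 1 β ^ (p ^ h - 1) = coeff 1 W := by
  have hp : p.Prime := Fact.out
  have hq : 1 ≤ p ^ h := Nat.one_le_pow _ _ hp.pos
  have e := congrArg (coeff 1) hβ
  rw [coeff_subst_eq h0, coeff_map, iterateFrobenius_def, Finset.sum_range_succ,
    Finset.sum_range_one, hb, zero_mul, zero_add, coeff_pow_self h0, pow_one] at e
  refine mul_left_cancel₀ hb1 ?_
  rw [e, ← pow_succ']
  congr 1
  omega

open Classical in
private theorem card_poly {L : Type*} [Field L] {q : ℕ} (hq : 2 ≤ q) (a b : L) :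
    ∃ t : Finset L, t.card ≤ q ∧ ∀ c : L, c ^ q - a * c = b → c ∈ t := by
  have hne : (Polynomial.X ^ q - Polynomial.C a * Polynomial.X - Polynomial.C b :
      Polynomial L) ≠ 0 := by
    intro hP
    have h1 := congrArg (fun P : Polynomial L => P.coeff q) hP
    simp only [Polynomial.coeff_sub, Polynomial.coeff_X_pow, Polynomial.coeff_C_mul,
      Polynomial.coeff_X, Polynomial.coeff_C, Polynomial.coeff_zero] at h1
    rw [if_pos trivial, if_neg (by omega), if_neg (by omega), mul_zero, sub_zero, sub_zero] at h1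
    exact one_ne_zero h1
  have hdeg : (Polynomial.X ^ q - Polynomial.C a * Polynomial.X - Polynomial.C b :
      Polynomial L).natDegree ≤ q := by
    refine (Polynomial.natDegree_sub_le _ _).trans (max_le ?_ ?_)
    · refine (Polynomial.natDegree_sub_le _ _).trans (max_le ?_ ?_)
      · rw [Polynomial.natDegree_X_pow]
      · refine (Polynomial.natDegree_C_mul_le a _).trans ?_
        rw [Polynomial.natDegree_X]
        omega
    · rw [Polynomial.natDegree_C]
      omega
  refine ⟨(Polynomial.X ^ q - Polynomial.C a * Polynomial.X - Polynomial.C b :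
      Polynomial L).roots.toFinset, ?_, fun c hc => ?_⟩
  · exact (Multiset.toFinset_card_le _).trans ((Polynomial.card_roots' _).trans hdeg)
  · rw [Multiset.mem_toFinset, Polynomial.mem_roots hne, Polynomial.IsRoot.def]
    simp only [Polynomial.eval_sub, Polynomial.eval_pow, Polynomial.eval_X, Polynomial.eval_mul,
      Polynomial.eval_C]
    rw [hc, sub_self]

open Classical in
theorem cnt_iso {L : Type*} [Field L] (p : ℕ) [Fact p.Prime] [CharP L p] {h : ℕ} (hh : 1 ≤ h)
    {F G : FormalGroup L} {W : L⟦X⟧} (h0 : coeff 0 W = 0) (h1 : coeff 1 W ≠ 0) (S : Set L⟦X⟧)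
    (hS : ∀ β ∈ S, IsHom F G β ∧ coeff 1 β ≠ 0 ∧
      (β.subst W : L⟦X⟧) = map (iterateFrobenius L p h) β) (i : ℕ) (β : L⟦X⟧) (hβ : β ∈ S) :
    {c : L | ∃ β' ∈ S, (∀ j < i, coeff j β' = coeff j β) ∧ coeff i β' = c}.Finite ∧
      {c : L | ∃ β' ∈ S, (∀ j < i, coeff j β' = coeff j β) ∧ coeff i β' = c}.ncard ≤
        (if i = 1 then p ^ h - 1 else if ∃ a : ℕ, 1 ≤ a ∧ i = p ^ a then p ^ h else 1) := by
  have hp : p.Prime := Fact.out
  have hq2 : 2 ≤ p ^ h := by
    calc 2 ≤ p ^ 1 := by rw [pow_one]; exact hp.two_le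
      _ ≤ p ^ h := Nat.pow_le_pow_right hp.pos hh
  have hz : ∀ β ∈ S, coeff 0 β = 0 := by
    intro β hβ
    rw [coeff_zero_eq_constantCoeff_apply]
    exact (hS β hβ).1.1
  by_cases hi1 : i = 1
  · subst hi1
    rw [if_pos rfl]
    refine fin_of (t := (Polynomial.nthRoots (p ^ h - 1) (coeff 1 W)).toFinset) ?_
      ((Multiset.toFinset_card_le _).trans (Polynomial.card_nthRoots _ _))
    rintro c ⟨β', hβ', -, rfl⟩
    rw [Multiset.mem_toFinset, Polynomial.mem_nthRoots (by omega)]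
    exact rel_one p h0 (hz β' hβ') (hS β' hβ').2.1 (hS β' hβ').2.2
  · rw [if_neg hi1]
    by_cases hip : ∃ a : ℕ, 1 ≤ a ∧ i = p ^ a
    · rw [if_pos hip]
      obtain ⟨t, ht, htm⟩ := card_poly hq2 (coeff 1 W ^ i)
        (coeff i β ^ p ^ h - coeff 1 W ^ i * coeff i β)
      refine fin_of (t := t) ?_ ht
      rintro c ⟨β', hβ', hl, rfl⟩
      exact htm _ (rel p h0 (hS β hβ).2.2 (hS β' hβ').2.2 hl)
    · rw [if_neg hip]
      refine fin_of (t := {coeff i β}) ?_ (Finset.card_singleton _).le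
      rintro c ⟨β', hβ', hl, rfl⟩
      rw [Finset.mem_singleton]
      rcases Nat.eq_zero_or_pos i with hi0 | hi0
      · rw [hi0, hz β' hβ', hz β hβ]
      · refine eq_of_not_pow p (hS β' hβ').1 (hS β hβ).1 hi0 hl ?_
        rintro ⟨a, ha⟩
        rcases Nat.eq_zero_or_pos a with ha0 | ha0
        · rw [ha0, pow_zero] at ha
          exact hi1 ha
        · exact hip ⟨a, ha0, ha⟩

end Pool.Agent.H74.MO
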