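import Pool.Agent.H74.MO.Pw

/-!
PROOF.  `e_s = q ^ s (q - 1)`.  `b_j ^ q = w_1 ^ j b_j + c_j`, `c_j = ∑ i < j, b_i [y ^ j] W ^ i`.
Write `x ~ y` for the order: all `v (b_i) < 1`.
Claim by strong induction on `j ≥ 1`, `p ^ s ≤ j < p ^ (s + 1)`:
  (a) `v (b_j) ^ (e_(s+1)) < τ`;  (b) if `j = p ^ s` then `v (b_j) ^ (e_s) = τ`.   ((b) implies (a).)
`j = 1`: `b_1 ^ (q - 1) = w_1`.
Terms of `c_j`: `i > j / p` (that is `j < p i`): `v (term) ≤ τ v (b_i) < τ`; `i ≤ j / p`: `v (term) ≤ v (b_i)`.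
`j` not a power of `p`: `i ≤ j / p` gives `i < p ^ s`, so `v (b_i) ^ (e_s) < τ` (by (a) for `i`, `e` increasing:
`v (b_i) ^ (e_s) = (v (b_i) ^ (e_(s'+1))) ^ (..) < τ`), and `τ' < τ` implies `τ' ^ (e_s) < τ`: so `v (c_j) ^ (e_s) < τ`.
If `v (b_j) ^ (e_(s+1)) ≥ τ`, i.e. `(v (b_j) ^ q) ^ (e_s) ≥ τ`, then `v (b_j ^ q) > v (c_j)` and
`v (b_j ^ q) > v (w_1 ^ j b_j)` (`v (b_j) ^ q ≥ τ` if `< 1`, `> τ ^ j v (b_j)`; if `v (b_j) ≥ 1` clear since `q ≥ 1`): contradiction.
`j = p ^ s`, `s ≥ 1`: the term `i = p ^ (s - 1)` has `v = v (b_i)`, `v (b_i) ^ (e_(s-1)) = τ`; the terms `i < p ^ (s - 1)` have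
`v (b_i) ^ (e_(s-1)) < τ`, the terms `i > p ^ (s - 1)` have `v < τ ≤ v (b_(p^(s-1)))`.  So `v (c_j) = v (b_(p^(s-1)))`.
Then `v (b_j) ^ q = v (c_j)`: if `v (b_j) ^ q > v (c_j)` then also `> v (w_1 ^ j b_j)` (as `v (c_j) ≥ τ`), contradiction;
if `v (b_j) ^ q < v (c_j)` then `v (b_j) < 1`, `v (w_1 ^ j b_j) < τ ≤ v (c_j)`, contradiction.
-/

open PowerSeries

namespace Pool.Agent.H74.MO

variable {K : Type*} [Field K] {Γ₀ : Type*} [LinearOrderedCommGroupWithZero Γ₀]
  {v : Valuation K Γ₀} {p : ℕ} {τ : Γ₀} {W : K⟦X⟧}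

private theorem vm_sum {ι : Type*} (v : Valuation K Γ₀) {e : ℕ} (he : e ≠ 0) {t : Γ₀} (ht : t ≠ 0) (s : Finset ι)
    (f : ι → K) (h : ∀ i ∈ s, v (f i) ^ e < t) : v (∑ i ∈ s, f i) ^ e < t := by
  classical
  induction s using Finset.induction_on with
  | empty =>
    rw [Finset.sum_empty, map_zero, zero_pow he]
    exact zero_lt_iff.2 ht
  | insert a s ha ih =>
    rw [Finset.sum_insert ha]
    have h1 := v.map_add (f a) (∑ i ∈ s, f i)
    have h2 := h a (Finset.mem_insert_self a s)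
    have h3 := ih fun i hi => h i (Finset.mem_insert_of_mem hi)
    rcases le_max_iff.1 h1 with h4 | h4
    · exact (pow_le_pow_left₀ zero_le h4 e).trans_lt h2
    · exact (pow_le_pow_left₀ zero_le h4 e).trans_lt h3

/-- the linear term is small -/
private theorem vm_lin {x t : Γ₀} {q j : ℕ} (hq : 2 ≤ q) (hj : 1 ≤ j) (ht1 : t < 1) (hx : x ≠ 0)
    (h : t ^ j < x ^ (q - 1) ∨ 1 ≤ x) : t ^ j * x < x ^ q := by
  have hq1 : x ^ q = x ^ (q - 1) * x := by
    rw [← pow_succ]
    congr 1
    omega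
  rw [hq1]
  refine mul_lt_mul_of_pos_right ?_ (zero_lt_iff.2 hx)
  rcases h with h | h
  · exact h
  · exact (pow_lt_one₀ zero_le ht1 (by omega)).trans_le (one_le_pow₀ h)

theorem val_main (hp : p.Prime) {m : ℕ} (hm : 1 ≤ m) (h : WData v p τ W) (b : ℕ → K)
    (hb1 : b 1 ≠ 0)
    (hrel : ∀ j, 1 ≤ j → b j ^ p ^ m = ∑ i ∈ Finset.Icc 1 j, b i * coeff j (W ^ i)) (s j : ℕ)
    (hj : p ^ s ≤ j) (hj2 : j < p ^ (s + 1)) :
    v (b j) ^ ((p ^ m) ^ (s + 1) * (p ^ m - 1)) < τ ∧
      (j = p ^ s → v (b j) ^ ((p ^ m) ^ s * (p ^ m - 1)) = τ) := by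
  obtain ⟨q, hqd⟩ : ∃ q, q = p ^ m := ⟨_, rfl⟩
  have hp2 := hp.two_le
  have hq : 2 ≤ q := by
    rw [hqd]
    calc 2 ≤ p := hp2
      _ = p ^ 1 := (pow_one p).symm
      _ ≤ p ^ m := Nat.pow_le_pow_right (by omega) hm
  rw [← hqd] at hrel ⊢
  have hτ := h.tau_ne
  have hτ1 := h.tau_lt
  have hτ0 : 0 < τ := zero_lt_iff.2 hτ
  have he : ∀ t, q ^ t * (q - 1) ≠ 0 := fun t => by
    have h1 : q ^ t ≠ 0 := pow_ne_zero _ (by omega)
    exact mul_ne_zero h1 (by omega)
  have hemono : ∀ a c : ℕ, a ≤ c → q ^ a * (q - 1) ≤ q ^ c * (q - 1) := fun a c hac =>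
    Nat.mul_le_mul_right _ (Nat.pow_le_pow_right (by omega) hac)
  have heq1 : ∀ t, q - 1 ≤ q ^ t * (q - 1) := fun t => Nat.le_mul_of_pos_left _ (by positivity)
  have hesucc : ∀ (x : Γ₀) (t : ℕ), x ^ (q ^ (t + 1) * (q - 1)) = (x ^ q) ^ (q ^ t * (q - 1)) := by
    intro x t
    rw [← pow_mul]
    congr 1
    ring
  have hba : ∀ (x : Γ₀) (t : ℕ), x ^ (q ^ t * (q - 1)) = τ → x ^ (q ^ (t + 1) * (q - 1)) < τ := by
    intro x t hx
    have h1 : x ^ (q ^ (t + 1) * (q - 1)) = τ ^ q := by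
      rw [← hx, ← pow_mul]
      congr 1
      ring
    rw [h1]
    calc τ ^ q ≤ τ ^ 2 := pow_le_pow_of_le_one zero_le hτ1.le hq
      _ < τ := by
        rw [pow_two]
        exact mul_lt_of_lt_one_left hτ0 hτ1
  have hlt1 : ∀ (x : Γ₀) (e : ℕ), x ^ e < τ → x < 1 := by
    intro x e hx
    by_contra h1
    rw [not_lt] at h1
    exact absurd (hx.trans hτ1) (not_lt.2 (one_le_pow₀ h1))
  induction j using Nat.strong_induction_on generalizing s with
  | _ j ih =>
  have hj1 : 1 ≤ j := le_trans (Nat.one_le_pow _ _ (by omega)) hj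
  -- the data of the smaller indices
  have hi : ∀ i, 1 ≤ i → i < j → ∃ t, p ^ t ≤ i ∧ i < p ^ (t + 1) ∧ v (b i) ^ (q ^ (t + 1) * (q - 1)) < τ ∧
      (i = p ^ t → v (b i) ^ (q ^ t * (q - 1)) = τ) := by
    intro i hi1 hij
    have h1 := Nat.pow_log_le_self p (x := i) (by omega)
    have h2 := Nat.lt_pow_succ_log_self (b := p) (by omega) i
    have h3 := ih i hij (Nat.log p i) h1 h2
    exact ⟨_, h1, h2, h3.1, h3.2⟩
  have hi1 : ∀ i, 1 ≤ i → i < j → v (b i) < 1 := by
    intro i h1 h2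
    obtain ⟨t, -, -, h3, -⟩ := hi i h1 h2
    exact hlt1 _ _ h3
  have hbig : ∀ i, 1 ≤ i → i < j → j < p * i → v (b i * coeff j (W ^ i)) < τ := by
    intro i h1 h2 h3
    rw [map_mul]
    rcases eq_or_ne (v (b i)) 0 with h4 | h4
    · rw [h4, zero_mul]
      exact hτ0
    · calc v (b i) * v (coeff j (W ^ i)) ≤ v (b i) * τ := mul_le_mul' le_rfl (pow_small h i j h3)
        _ < τ := mul_lt_of_lt_one_left hτ0 (hi1 i h1 h2)
  have hle : ∀ i, v (b i * coeff j (W ^ i)) ≤ v (b i) := by
    intro i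
    rw [map_mul]
    exact mul_le_of_le_one_right zero_le (pow_int h i j)
  have hlow : ∀ i t, 1 ≤ i → i < j → i < p ^ t → v (b i) ^ (q ^ t * (q - 1)) < τ := by
    intro i t h1 h2 h3
    obtain ⟨t', h4, h5, h6, -⟩ := hi i h1 h2
    have h7 : t' + 1 ≤ t := by
      by_contra h8
      have h9 : t ≤ t' := by omega
      have h10 := Nat.pow_le_pow_right (n := p) (by omega) h9
      omega
    exact (pow_le_pow_of_le_one zero_le (hi1 i h1 h2).le (hemono _ _ h7)).trans_lt h6
  -- the equation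
  obtain ⟨c, hc⟩ : ∃ c, c = ∑ i ∈ Finset.Ico 1 j, b i * coeff j (W ^ i) := ⟨_, rfl⟩
  have hEq : b j ^ q = c + b j * coeff 1 W ^ j := by
    have h1 : Finset.Icc 1 j = insert j (Finset.Ico 1 j) := by
      ext i
      rw [Finset.mem_insert, Finset.mem_Icc, Finset.mem_Ico]
      omega
    have h2 : j ∉ Finset.Ico 1 j := by
      rw [Finset.mem_Ico]
      omega
    rw [hrel j hj1, h1, Finset.sum_insert h2, coeff_pow_self h.zero j, hc, add_comm]
  have hvl : v (b j * coeff 1 W ^ j) = τ ^ j * v (b j) := by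
    rw [map_mul, map_pow, h.one, mul_comm]
  have hmax : v (b j) ^ q ≤ max (v c) (τ ^ j * v (b j)) := by
    rw [← map_pow, hEq, ← hvl]
    exact v.map_add _ _
  by_cases hpow : j = p ^ s
  · rcases Nat.eq_zero_or_pos s with hs0 | hs0
    · -- j = 1
      subst hs0
      rw [pow_zero] at hpow
      subst hpow
      have h1 : b 1 ^ (q - 1) = coeff 1 W := by
        have h2 : c = 0 := by
          rw [hc, Finset.Ico_self, Finset.sum_empty]
        rw [h2, zero_add, pow_one] at hEq
        apply mul_left_cancel₀ hb1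
        rw [← hEq, ← pow_succ']
        congr 1
        omega
      have h2 : v (b 1) ^ (q ^ 0 * (q - 1)) = τ := by
        rw [pow_zero, one_mul, ← map_pow, h1, h.one]
      exact ⟨hba _ _ h2, fun _ => h2⟩
    · obtain ⟨r, rfl⟩ : ∃ r, s = r + 1 := ⟨s - 1, by omega⟩
      have hr0 : 1 ≤ p ^ r := Nat.one_le_pow _ _ (by omega)
      have hrj : p * p ^ r = j := by
        rw [hpow]
        ring
      have hrlt : p ^ r < j := by
        rw [← hrj]
        nlinarith
      obtain ⟨β, hβ⟩ : ∃ β, β = v (b (p ^ r)) := ⟨_, rfl⟩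
      have hβ1 : β < 1 := by
        rw [hβ]
        exact hi1 _ hr0 hrlt
      have hβe : β ^ (q ^ r * (q - 1)) = τ := by
        obtain ⟨t, h4, h5, -, h6⟩ := hi _ hr0 hrlt
        have h7 : r = t := by
          have h8 := (Nat.pow_le_pow_iff_right (by omega : 1 < p)).1 h4
          have h9 := (Nat.pow_lt_pow_iff_right (by omega : 1 < p)).1 h5
          omega
        rw [hβ]
        rw [← h7] at h6
        exact h6 rfl
      have hβ0 : β ≠ 0 := by
        intro h0
        rw [h0, zero_pow (he r)] at hβe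
        exact hτ hβe.symm
      have hτβ : τ ≤ β := by
        rw [← hβe]
        exact pow_le_of_le_one zero_le hβ1.le (he r)
      have hvc : v c = β := by
        have h1 : c = b (p ^ r) * coeff j (W ^ (p ^ r)) +
            ∑ i ∈ (Finset.Ico 1 j).erase (p ^ r), b i * coeff j (W ^ i) := by
          rw [hc]
          exact (Finset.add_sum_erase _ _ (Finset.mem_Ico.2 ⟨hr0, hrlt⟩)).symm
        have h2 : v (b (p ^ r) * coeff j (W ^ (p ^ r))) = β := by
          rw [map_mul, ← hrj, pow_unit h, mul_one, hβ]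
        have h3 : v (∑ i ∈ (Finset.Ico 1 j).erase (p ^ r), b i * coeff j (W ^ i)) < β := by
          refine Valuation.map_sum_lt v hβ0 fun i hi' => ?_
          rw [Finset.mem_erase, Finset.mem_Ico] at hi'
          rcases lt_or_gt_of_ne hi'.1 with h4 | h4
          · refine (hle i).trans_lt ?_
            have h5 := hlow i r hi'.2.1 hi'.2.2 h4
            rw [← hβe] at h5
            exact lt_of_pow_lt_pow_left₀ _ zero_le h5
          · refine (hbig i hi'.2.1 hi'.2.2 ?_).trans_le hτβ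
            rw [← hrj]
            exact Nat.mul_lt_mul_of_pos_left h4 (by omega)
        rw [h1, Valuation.map_add_eq_of_lt_left v (by rw [h2]; exact h3), h2]
      have hmain : v (b j) ^ q = β := by
        rcases lt_trichotomy (v (b j) ^ q) β with h1 | h1 | h1
        · exfalso
          have h2 : v (b j) < 1 := by
            by_contra h3
            rw [not_lt] at h3
            exact absurd (h1.trans hβ1) (not_lt.2 (one_le_pow₀ h3))
          have h3 : τ ^ j * v (b j) < β := by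
            rcases eq_or_ne (v (b j)) 0 with h4 | h4
            · rw [h4, mul_zero]
              exact zero_lt_iff.2 hβ0
            · calc τ ^ j * v (b j) ≤ τ * v (b j) :=
                    mul_le_mul' (pow_le_of_le_one zero_le hτ1.le (by omega)) le_rfl
                _ < τ := mul_lt_of_lt_one_right hτ0 h2
                _ ≤ β := hτβ
          have h4 : c = b j ^ q - b j * coeff 1 W ^ j := by rw [hEq, add_sub_cancel_right]
          have h5 : v c < β := by
            rw [h4]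
            refine (v.map_sub _ _).trans_lt ?_
            rw [max_lt_iff, map_pow, hvl]
            exact ⟨h1, h3⟩
          rw [hvc] at h5
          exact lt_irrefl _ h5
        · exact h1
        · exfalso
          have h0 : v (b j) ≠ 0 := by
            intro h0
            rw [h0, zero_pow (by omega)] at h1
            exact not_lt_zero h1
          have h2 : τ ^ j * v (b j) < v (b j) ^ q := by
            refine vm_lin hq hj1 hτ1 h0 ?_
            rcases lt_or_ge (v (b j)) 1 with h3 | h3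
            · left
              calc τ ^ j ≤ τ := pow_le_of_le_one zero_le hτ1.le (by omega)
                _ ≤ β := hτβ
                _ < v (b j) ^ q := h1
                _ ≤ v (b j) ^ (q - 1) := pow_le_pow_of_le_one zero_le h3.le (by omega)
            · exact Or.inr h3
          have h3 : max (v c) (τ ^ j * v (b j)) < v (b j) ^ q := by
            rw [max_lt_iff, hvc]
            exact ⟨h1, h2⟩
          exact absurd hmax (not_le.2 h3)
      have hb : v (b j) ^ (q ^ (r + 1) * (q - 1)) = τ := by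
        rw [hesucc, hmain, hβe]
      exact ⟨hba _ _ hb, fun _ => hb⟩
  · refine ⟨?_, fun h1 => absurd h1 hpow⟩
    have hj3 : 2 ≤ j := by
      rcases Nat.eq_zero_or_pos s with hs0 | hs0
      · subst hs0
        rw [pow_zero] at hj hpow
        omega
      · have h1 : p ^ 1 ≤ p ^ s := Nat.pow_le_pow_right (by omega) hs0
        rw [pow_one] at h1
        omega
    have hvc : v c ^ (q ^ s * (q - 1)) < τ := by
      rw [hc]
      refine vm_sum v (he s) hτ _ _ fun i hi' => ?_
      rw [Finset.mem_Ico] at hi'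
      rcases lt_or_ge j (p * i) with h1 | h1
      · calc v (b i * coeff j (W ^ i)) ^ (q ^ s * (q - 1)) < τ ^ (q ^ s * (q - 1)) :=
              pow_lt_pow_left₀ (hbig i hi'.1 hi'.2 h1) zero_le (he s)
          _ ≤ τ := pow_le_of_le_one zero_le hτ1.le (he s)
      · refine (pow_le_pow_left₀ zero_le (hle i) _).trans_lt (hlow i s hi'.1 hi'.2 ?_)
        by_contra h2
        have h3 : p * p ^ s ≤ p * i := Nat.mul_le_mul_left _ (by omega)
        rw [pow_succ'] at hj2
        omega
    by_contra hcon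
    rw [not_lt] at hcon
    have h0 : v (b j) ≠ 0 := by
      intro h0
      rw [h0, zero_pow (he _)] at hcon
      exact hτ (le_zero_iff.1 hcon)
    have h1 : v c < v (b j) ^ q := by
      rw [hesucc] at hcon
      exact lt_of_pow_lt_pow_left₀ _ zero_le (hvc.trans_le hcon)
    have h2 : τ ^ j * v (b j) < v (b j) ^ q := by
      refine vm_lin hq hj1 hτ1 h0 ?_
      rcases lt_or_ge (v (b j)) 1 with h3 | h3
      · left
        calc τ ^ j ≤ τ ^ 2 := pow_le_pow_of_le_one zero_le hτ1.le hj3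
          _ < τ := by
            rw [pow_two]
            exact mul_lt_of_lt_one_left hτ0 hτ1
          _ ≤ v (b j) ^ (q ^ (s + 1) * (q - 1)) := hcon
          _ ≤ v (b j) ^ (q - 1) := pow_le_pow_of_le_one zero_le h3.le (heq1 _)
      · exact Or.inr h3
    exact absurd hmax (not_le.2 (max_lt h1 h2))

end Pool.Agent.H74.MO
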