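import Pool.Agent.H74.LA.Nrm
import Pool.Agent.H74.MO.Set
import Pool.Agent.H74.MO.Cmp
import Pool.Agent.H74.MO.Val
import Pool.Agent.H74.MO.Deg
import Pool.Agent.H74.MO.Lau

/-!
# Full monodromy over `k((u))`
-/

open PowerSeries

namespace Pool.Agent.H74.MO

open Pool.Agent.H13.CA Pool.Agent.H74.LA

theorem exists_val' (k : Type*) [Field k] (K : Type*) [Field K] [Algebra k⟦X⟧ K]
    (hinj : Function.Injective (algebraMap k⟦X⟧ K)) :
    ∃ B : ValuationSubring K,
      B.valuation (algebraMap k⟦X⟧ K X) ≠ 0 ∧ B.valuation (algebraMap k⟦X⟧ K X) < 1 ∧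
      (∀ f : k⟦X⟧, B.valuation (algebraMap k⟦X⟧ K f) ≤ 1) ∧
      (∀ f : k⟦X⟧, constantCoeff f ≠ 0 → B.valuation (algebraMap k⟦X⟧ K f) = 1) := by
  let φ : LaurentSeries k →+* K := IsFractionRing.lift (A := k⟦X⟧) (K := LaurentSeries k) hinj
  have hφ : ∀ f : k⟦X⟧, φ (f : LaurentSeries k) = algebraMap k⟦X⟧ K f := fun f =>
    IsFractionRing.lift_algebraMap hinj f
  let _ : Algebra (LaurentSeries k) K := φ.toAlgebra
  obtain ⟨B, h1, h2, h3, h4, _⟩ := exists_val k K
  have h5 : ∀ f : k⟦X⟧, algebraMap (LaurentSeries k) K (f : LaurentSeries k) =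
      algebraMap k⟦X⟧ K f := hφ
  simp only [h5] at h1 h2 h3 h4
  exact ⟨B, h1, h2, h3, h4⟩

theorem val_ne_zero {k : Type*} [Field k] {K : Type*} [Field K] [Algebra k⟦X⟧ K]
    {Γ₀ : Type*} [LinearOrderedCommGroupWithZero Γ₀] (v : Valuation K Γ₀)
    (hv : ∀ f : k⟦X⟧, constantCoeff f ≠ 0 → v (algebraMap k⟦X⟧ K f) = 1) {f : k⟦X⟧}
    (hf : f ≠ 0) : ∃ n : ℕ, v (algebraMap k⟦X⟧ K f) = v (algebraMap k⟦X⟧ K X) ^ n := by
  refine ⟨f.order.toNat, ?_⟩
  have h1 : constantCoeff (divXPowOrder f) ≠ 0 := by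
    intro h
    exact hf (constantCoeff_divXPowOrder_eq_zero_iff.mp h)
  conv_lhs => rw [← X_pow_order_mul_divXPowOrder (f := f)]
  rw [map_mul, map_mul, map_pow, map_pow, hv _ h1, mul_one]

theorem val_frac {k : Type*} [Field k] {κ K : Type*} [Field κ] [Field K] [Algebra k⟦X⟧ κ]
    [IsFractionRing k⟦X⟧ κ] [Algebra κ K] [Algebra k⟦X⟧ K] [IsScalarTower k⟦X⟧ κ K]
    {Γ₀ : Type*} [LinearOrderedCommGroupWithZero Γ₀] (v : Valuation K Γ₀)
    (h0 : v (algebraMap k⟦X⟧ K X) ≠ 0)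
    (hv : ∀ f : k⟦X⟧, constantCoeff f ≠ 0 → v (algebraMap k⟦X⟧ K f) = 1) (a : κ) (ha : a ≠ 0) :
    ∃ z : ℤ, v (algebraMap κ K a) = v (algebraMap k⟦X⟧ K X) ^ z := by
  obtain ⟨f, g, hg, rfl⟩ := IsFractionRing.div_surjective (A := k⟦X⟧) a
  have hg0 : g ≠ 0 := nonZeroDivisors.ne_zero hg
  have hf0 : f ≠ 0 := by
    rintro rfl
    apply ha
    rw [map_zero, zero_div]
  obtain ⟨n, hn⟩ := val_ne_zero v hv hf0
  obtain ⟨m, hm⟩ := val_ne_zero v hv hg0
  refine ⟨(n : ℤ) - m, ?_⟩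
  rw [map_div₀, map_div₀, ← IsScalarTower.algebraMap_apply, ← IsScalarTower.algebraMap_apply,
    hn, hm, zpow_sub₀ h0, zpow_natCast, zpow_natCast]

theorem mon {k : Type*} [Field k] [IsAlgClosed k] (p : ℕ) [Fact p.Prime] [CharP k p] {h : ℕ}
    (hh : 1 ≤ h) {F : FormalGroup (PowerSeries k)} (hF : F.IsComm)
    (h1 : ∀ i, i < p ^ h → PowerSeries.coeff i (mulSer F p) = 0)
    (h2 : PowerSeries.coeff (p ^ h) (mulSer F p) = PowerSeries.X)
    (h3 : ∀ i, i < p ^ (h + 1) → (PowerSeries.X : PowerSeries k) ∣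
      PowerSeries.coeff i (mulSer F p))
    (h4 : IsUnit (PowerSeries.coeff (p ^ (h + 1)) (mulSer F p)))
    {K L : Type*} [Field K] [Field L] [Algebra k K] [Algebra k L]
    [Algebra (PowerSeries k) K] [IsFractionRing (PowerSeries k) K]
    [Algebra K L] [Algebra (PowerSeries k) L]
    [IsScalarTower k (PowerSeries k) K] [IsScalarTower k K L]
    [IsScalarTower (PowerSeries k) K L] [IsSepClosure K L]
    {Γ : FormalGroup k} (hΓ' : mulSer Γ p = PowerSeries.X ^ p ^ h)
    {β : PowerSeries L}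
    (hβ : IsHom (F.map (algebraMap (PowerSeries k) L)) (Γ.map (algebraMap k L)) β)
    (hu : IsUnit (PowerSeries.coeff 1 β)) {θ : PowerSeries k} (hθ : IsHom Γ Γ θ)
    (hu' : IsUnit (PowerSeries.coeff 1 θ)) :
    ∃ σ : L ≃ₐ[K] L, PowerSeries.map (σ : L →+* L) β =
      PowerSeries.subst β (PowerSeries.map (algebraMap k L) θ) := by
  have hp : p.Prime := Fact.out
  have hq : p ^ h ≠ 0 := pow_ne_zero _ hp.ne_zero
  have hinj : Function.Injective (algebraMap k⟦X⟧ L) := by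
    rw [IsScalarTower.algebraMap_eq k⟦X⟧ K L]
    exact (algebraMap K L).injective.comp (IsFractionRing.injective k⟦X⟧ K)
  have hcL : CharP L p := charP_of_injective_algebraMap (algebraMap k L).injective p
  have hcA : CharP k⟦X⟧ p := charP_of_injective_algebraMap (algebraMap k k⟦X⟧).injective p
  have : IsSepClosed L := IsSepClosure.sep_closed K
  have : IsGalois K L := inferInstance
  obtain ⟨B, v0, v1, v2, v3⟩ := exists_val' k L hinj
  obtain ⟨W, hW⟩ : ∃ W : L⟦X⟧, W = wOf (p ^ h)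
      (mulSer (F.map (algebraMap (PowerSeries k) L)) p) := ⟨_, rfl⟩
  have hWc : ∀ i, coeff i W = algebraMap k⟦X⟧ L (coeff (p ^ h * i) (mulSer F p)) := by
    intro i
    rw [hW, coeff_wOf, mulSer_map, coeff_map]
  have hdiv : ∀ i, ¬ p ^ h ∣ i → coeff i (mulSer (F.map (algebraMap (PowerSeries k) L)) p) = 0 := by
    intro i hi
    rw [mulSer_map, coeff_map, hgt p hF h1 i hi, map_zero]
  have hWD : WData B.valuation p (B.valuation (algebraMap k⟦X⟧ L X)) W := by
    refine ⟨v0, v1, ?_, ?_, ?_, ?_, ?_⟩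
    · rw [hWc, mul_zero, coeff_zero_eq_constantCoeff_apply, cc_mulSer, map_zero]
    · rw [hWc, mul_one, h2]
    · intro i
      rw [hWc]
      exact v2 _
    · intro i hi
      rw [hWc]
      obtain ⟨g, hg⟩ := h3 (p ^ h * i) (by
        rw [pow_succ]
        exact Nat.mul_lt_mul_of_pos_left hi (Nat.pos_of_ne_zero hq))
      rw [hg, map_mul, map_mul]
      calc _ ≤ B.valuation (algebraMap k⟦X⟧ L X) * 1 := mul_le_mul_right (v2 g) _
        _ = _ := mul_one _
    · rw [hWc, ← pow_succ]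
      apply v3
      have := isUnit_constantCoeff _ h4
      exact this.ne_zero
  have hΓL : mulSer (Γ.map (algebraMap k L)) p = (X : L⟦X⟧) ^ p ^ h := by
    rw [mulSer_map, hΓ', map_pow, map_X]
  obtain ⟨S, hS⟩ : ∃ S : Set L⟦X⟧, S = {b | IsHom (F.map (algebraMap (PowerSeries k) L))
      (Γ.map (algebraMap k L)) b ∧ coeff 1 b ≠ 0} := ⟨_, rfl⟩
  have hSrel : ∀ b ∈ S, IsHom (F.map (algebraMap (PowerSeries k) L))
      (Γ.map (algebraMap k L)) b ∧ coeff 1 b ≠ 0 ∧
      (b.subst W : L⟦X⟧) = map (iterateFrobenius L p h) b := by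
    intro b hb
    rw [hS] at hb
    refine ⟨hb.1, hb.2, ?_⟩
    rw [hW]
    exact rel_of_hom p hdiv hΓL hb.1
  have hstab : ∀ σ : L ≃ₐ[K] L, ∀ b ∈ S, map (σ : L →+* L) b ∈ S := by
    intro σ b hb
    rw [hS] at hb ⊢
    refine ⟨?_, ?_⟩
    · have h5 := hb.1.map (σ : L →+* L)
      rw [fmap_map, fmap_map] at h5
      have h6 : (σ : L →+* L).comp (algebraMap (PowerSeries k) L) =
          algebraMap (PowerSeries k) L := by
        ext x
        change σ (algebraMap (PowerSeries k) L x) = algebraMap (PowerSeries k) L x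
        rw [IsScalarTower.algebraMap_apply (PowerSeries k) K L, AlgEquiv.commutes]
      have h7 : (σ : L →+* L).comp (algebraMap k L) = algebraMap k L := by
        ext x
        change σ (algebraMap k L x) = algebraMap k L x
        rw [IsScalarTower.algebraMap_apply k K L, AlgEquiv.commutes]
      rw [h6, h7] at h5
      exact h5
    · rw [coeff_map]
      change σ (coeff 1 b) ≠ 0
      rw [ne_eq, EmbeddingLike.map_eq_zero_iff]
      exact hb.2
  classical
  have hcnt := cnt S _ (cnt_iso p hh hWD.zero (by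
    intro h
    have := hWD.one
    rw [h, map_zero] at this
    exact v0 this.symm) S hSrel)
  have hpq := fun s => prod_cnt hp (p ^ h) s
  have hβS : β ∈ S := by
    rw [hS]
    exact ⟨hβ, hu.ne_zero⟩
  have hθS : PowerSeries.subst β (PowerSeries.map (algebraMap k L) θ) ∈ S := by
    rw [hS]
    have hθL := hθ.map (algebraMap k L)
    refine ⟨hβ.comp hθL, ?_⟩
    rw [LA.coeff_one_subst hβ.1 hθL.1, coeff_map]
    exact mul_ne_zero ((hu'.map (algebraMap k L)).ne_zero) hu.ne_zero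
  refine transitive S hstab (fun s => p ^ s) (fun s => (p ^ h - 1) * (p ^ h) ^ s)
    (pow_right_strictMono₀ hp.one_lt) ?_ ?_ β hβS _ hθS
  · intro s
    refine ⟨(hcnt (p ^ s + 1)).1, le_trans (hcnt (p ^ s + 1)).2 (le_of_eq ?_)⟩
    exact hpq s
  · intro b hb s
    obtain ⟨hb1, hb2, hb3⟩ := hSrel b hb
    have h8 := val_main hp hh hWD (fun i => coeff i b) hb2 (by
      intro j hj
      have h9 := congrArg (coeff j) hb3
      rw [coeff_subst_eq_Icc hWD.zero b (by
        rw [coeff_zero_eq_constantCoeff_apply]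
        exact hb1.1), coeff_map, iterateFrobenius_def] at h9
      exact h9.symm) s (p ^ s) le_rfl (Nat.pow_lt_pow_right hp.one_lt (Nat.lt_succ_self s))
    refine deg_minpoly B.valuation _ v0 v1 (val_frac B.valuation v0 v3) (coeff (p ^ s) b) _ ?_
    rw [mul_comm]
    exact h8.2 rfl

end Pool.Agent.H74.MO
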