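import Pool.Agent.H74.LA.Fix
import Pool.Agent.H44.CA.Coord

/-!
(helper44)  PROOF.  Let `f : F → G` be a homomorphism over a domain of characteristic `p`, `Q = p ^ j`, all
coefficients of `f` of index not divisible by `Q` vanish and `coeff Q f = 0`.  Then all coefficients of index
not divisible by `p Q` vanish: for the smallest `i = Q n'`, `p ∤ n'`, with `coeff i f ≠ 0` compare the
coefficients of `x ^ (i - Q) y ^ Q` in `f (F (x, y)) = G (f x, f y)`.
-/

open PowerSeries

namespace Pool.Agent.H74.MO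

open Pool.Agent.H13.CA Pool.Agent.H44.CA

/-- the exponent `(a, b)` -/
noncomputable def ex (a b : ℕ) : Fin 2 →₀ ℕ := Finsupp.single 0 a + Finsupp.single 1 b

theorem ex_zero (a b : ℕ) : ex a b 0 = a := by simp [ex]

theorem ex_one (a b : ℕ) : ex a b 1 = b := by simp [ex]

theorem degree_two (d : Fin 2 →₀ ℕ) : d.degree = d 0 + d 1 := by
  rw [Finsupp.degree_eq_sum, Fin.sum_univ_two]

theorem ext_two {d e : Fin 2 →₀ ℕ} (h0 : d 0 = e 0) (h1 : d 1 = e 1) : d = e := by
  ext s
  fin_cases s
  · exact h0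
  · exact h1

theorem cl_F {R : Type*} [CommRing R] (F : FormalGroup R) :
    Cl 1 F.toPowerSeries (MvPowerSeries.X 0 + MvPowerSeries.X 1) := by
  refine ⟨?_, ?_, ?_⟩
  · exact_mod_cast MvPowerSeries.one_le_order_iff_constCoeff_eq_zero.2 F.zero_constantCoeff
  · have : MvPowerSeries.constantCoeff
        (MvPowerSeries.X 0 + MvPowerSeries.X 1 : MvPowerSeries (Fin 2) R) = 0 := by simp
    exact_mod_cast MvPowerSeries.one_le_order_iff_constCoeff_eq_zero.2 this
  · refine MvPowerSeries.nat_le_order fun d hd => ?_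
    rw [degree_two] at hd
    have hc : (d 0 = 0 ∧ d 1 = 0) ∨ (d 0 = 1 ∧ d 1 = 0) ∨ (d 0 = 0 ∧ d 1 = 1) := by omega
    rcases hc with ⟨h0, h1⟩ | ⟨h0, h1⟩ | ⟨h0, h1⟩
    · have : d = 0 := ext_two h0 h1
      subst this
      rw [MvPowerSeries.coeff_zero_eq_constantCoeff_apply, map_sub, F.zero_constantCoeff]
      simp
    · have : d = Finsupp.single 0 1 := ext_two (by rw [h0]; simp) (by rw [h1]; simp)
      subst this
      rw [map_sub, F.lin_coeff_X, map_add, MvPowerSeries.coeff_X, MvPowerSeries.coeff_X,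
        if_pos rfl, if_neg, add_zero, sub_self]
      intro h
      have := DFunLike.congr_fun h 0
      simp at this
    · have : d = Finsupp.single 1 1 := ext_two (by rw [h0]; simp) (by rw [h1]; simp)
      subst this
      rw [map_sub, F.lin_coeff_Y, map_add, MvPowerSeries.coeff_X, MvPowerSeries.coeff_X,
        if_neg, if_pos rfl, zero_add, sub_self]
      intro h
      have := DFunLike.congr_fun h 0
      simp at this

/-- the coefficient of `x ^ n y` in `F (x, y) ^ (n + 1)` -/
theorem coeff_F_pow {R : Type*} [CommRing R] (F : FormalGroup R) (n : ℕ) :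
    MvPowerSeries.coeff (ex n 1) (F.toPowerSeries ^ (n + 1)) = ((n + 1 : ℕ) : R) := by
  classical
  have hc := (cl_F F).pow (n + 1)
  have h0 : MvPowerSeries.coeff (ex n 1) (F.toPowerSeries ^ (n + 1) -
      (MvPowerSeries.X 0 + MvPowerSeries.X 1) ^ (n + 1)) = 0 := by
    refine MvPowerSeries.coeff_of_lt_order (lt_of_lt_of_le ?_ hc.2.2)
    rw [degree_two, ex_zero, ex_one]
    exact_mod_cast Nat.lt_succ_self _
  rw [map_sub, sub_eq_zero] at h0
  rw [h0, add_pow, map_sum, Finset.sum_eq_single n]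
  · have h1 : (MvPowerSeries.X 0 : MvPowerSeries (Fin 2) R) ^ n *
        MvPowerSeries.X 1 ^ (n + 1 - n) * ((n + 1).choose n : MvPowerSeries (Fin 2) R) =
        MvPowerSeries.monomial (ex n 1) (((n + 1).choose n : ℕ) : R) := by
      rw [MvPowerSeries.X_pow_eq, MvPowerSeries.X_pow_eq, MvPowerSeries.monomial_mul_monomial,
        one_mul, Nat.add_sub_cancel_left, ← map_natCast (MvPowerSeries.C (σ := Fin 2) (R := R)),
        ← MvPowerSeries.monomial_zero_eq_C_apply, MvPowerSeries.monomial_mul_monomial, add_zero,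
        one_mul]
      rfl
    rw [h1, MvPowerSeries.coeff_monomial_same, Nat.choose_succ_self_right]
  · intro m _ hm
    have h1 : (MvPowerSeries.X 0 : MvPowerSeries (Fin 2) R) ^ m *
        MvPowerSeries.X 1 ^ (n + 1 - m) * ((n + 1).choose m : MvPowerSeries (Fin 2) R) =
        MvPowerSeries.monomial (ex m (n + 1 - m)) (((n + 1).choose m : ℕ) : R) := by
      rw [MvPowerSeries.X_pow_eq, MvPowerSeries.X_pow_eq, MvPowerSeries.monomial_mul_monomial,
        one_mul, ← map_natCast (MvPowerSeries.C (σ := Fin 2) (R := R)),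
        ← MvPowerSeries.monomial_zero_eq_C_apply, MvPowerSeries.monomial_mul_monomial, add_zero,
        one_mul]
      rfl
    rw [h1, MvPowerSeries.coeff_monomial, if_neg]
    intro h
    have := DFunLike.congr_fun h 0
    rw [ex_zero, ex_zero] at this
    exact hm this.symm
  · intro h
    simp at h

theorem coeff_subst_X0 {R : Type*} [CommRing R] (g : R⟦X⟧) {e : Fin 2 →₀ ℕ} (he : e 1 ≠ 0) :
    MvPowerSeries.coeff e
      (PowerSeries.subst (MvPowerSeries.X 0 : MvPowerSeries (Fin 2) R) g) = 0 := by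
  classical
  rw [PowerSeries.coeff_subst (PowerSeries.HasSubst.X 0)]
  refine finsum_eq_zero_of_forall_eq_zero fun d => ?_
  rw [MvPowerSeries.X_pow_eq, MvPowerSeries.coeff_monomial, if_neg, smul_zero]
  intro h
  apply he
  rw [h]
  simp

/-- one step -/
theorem hgt_step {A : Type*} [CommRing A] [IsDomain A] (p : ℕ) [hp : Fact p.Prime] [CharP A p]
    {F G : FormalGroup A} {f : A⟦X⟧} (hf : IsHom F G f) (j : ℕ)
    (h0 : ∀ i, ¬ p ^ j ∣ i → coeff i f = 0) (h1 : coeff (p ^ j) f = 0) (i : ℕ)
    (hi : ¬ p ^ (j + 1) ∣ i) : coeff i f = 0 := by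
  classical
  haveI : ExpChar A p := ExpChar.prime hp.out
  have hQ : 0 < p ^ j := pow_pos hp.out.pos j
  induction i using Nat.strong_induction_on with
  | _ i ih =>
  by_cases hdv : p ^ j ∣ i
  swap
  · exact h0 i hdv
  obtain ⟨n, rfl⟩ := hdv
  have hpn : ¬ p ∣ n := by
    intro h
    apply hi
    rw [pow_succ]
    exact Nat.mul_dvd_mul_left _ h
  have hn0 : n ≠ 0 := by
    rintro rfl
    exact hpn (dvd_zero p)
  obtain ⟨n, rfl⟩ : ∃ m, n = m + 1 := ⟨n - 1, by omega⟩
  by_cases hn1 : n = 0
  · subst hn1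
    simpa using h1
  set e : Fin 2 →₀ ℕ := ex (p ^ j * n) (p ^ j) with he
  have he' : e = p ^ j • ex n 1 := by
    refine ext_two ?_ ?_
    · rw [he, ex_zero, Finsupp.smul_apply, ex_zero, smul_eq_mul]
    · rw [he, ex_one, Finsupp.smul_apply, ex_one, smul_eq_mul, mul_one]
  have hdeg : e.degree = p ^ j * (n + 1) := by
    rw [degree_two, he, ex_zero, ex_one]
    ring
  have hX0 : PowerSeries.HasSubst (MvPowerSeries.X 0 : MvPowerSeries (Fin 2) A) :=
    PowerSeries.HasSubst.X 0
  have hX1 : PowerSeries.HasSubst (MvPowerSeries.X 1 : MvPowerSeries (Fin 2) A) :=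
    PowerSeries.HasSubst.X 1
  -- the left side
  have hL : MvPowerSeries.coeff e (PowerSeries.subst F.toPowerSeries f) =
      coeff (p ^ j * (n + 1)) f * ((n + 1 : ℕ) : A) ^ p ^ j := by
    rw [PowerSeries.coeff_subst (hs_F F), finsum_eq_single _ (p ^ j * (n + 1))]
    · rw [smul_eq_mul]
      congr 1
      rw [mul_comm, pow_mul, ← MvPowerSeries.map_iterateFrobenius_expand p hp.out.ne_zero,
        MvPowerSeries.coeff_map, he', MvPowerSeries.coeff_expand_smul, coeff_F_pow,
        iterateFrobenius_def]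
    · intro k hk
      rcases lt_or_gt_of_ne hk with hlt | hgt
      · by_cases hkd : p ^ (j + 1) ∣ k
        · obtain ⟨t, rfl⟩ := hkd
          have : MvPowerSeries.coeff e (F.toPowerSeries ^ (p ^ (j + 1) * t)) = 0 := by
            rw [mul_comm, pow_mul, ← MvPowerSeries.map_iterateFrobenius_expand p hp.out.ne_zero,
              MvPowerSeries.coeff_map,
              MvPowerSeries.coeff_expand_of_not_dvd (p ^ (j + 1)) _ _ (i := 1), map_zero]
            rw [he, ex_one]
            intro h
            have h2 := Nat.le_of_dvd hQ h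
            have h3 := hp.out.two_le
            rw [pow_succ] at h2
            nlinarith
          rw [this, smul_zero]
        · rw [ih k hlt hkd, zero_smul]
      · have : MvPowerSeries.coeff e (F.toPowerSeries ^ k) = 0 := by
          refine MvPowerSeries.coeff_of_lt_order (lt_of_lt_of_le ?_
            (MvPowerSeries.le_order_pow_of_constantCoeff_eq_zero k F.zero_constantCoeff))
          rw [hdeg]
          exact_mod_cast hgt
        rw [this, smul_zero]
  -- the right side
  have hfd : ∃ g : A⟦X⟧, f = X ^ (p ^ j + 1) * g := by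
    refine PowerSeries.X_pow_dvd_iff.2 fun m hm => ?_
    rcases Nat.eq_zero_or_pos m with rfl | hm0
    · rw [PowerSeries.coeff_zero_eq_constantCoeff_apply]; exact hf.1
    · rcases Nat.lt_or_ge m (p ^ j) with h | h
      · exact h0 m fun hd => absurd (Nat.le_of_dvd hm0 hd) (by omega)
      · have : m = p ^ j := by omega
        rw [this]; exact h1
  obtain ⟨g, hg⟩ := hfd
  have hR : MvPowerSeries.coeff e (MvPowerSeries.subst
      ![PowerSeries.subst (MvPowerSeries.X 0 : MvPowerSeries (Fin 2) A) f,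
        PowerSeries.subst (MvPowerSeries.X 1 : MvPowerSeries (Fin 2) A) f] G.toPowerSeries) = 0 := by
    rw [MvPowerSeries.coeff_subst (hasSubst_pair (hs_subst hX0 hf.1) (hs_subst hX1 hf.1))]
    refine finsum_eq_zero_of_forall_eq_zero fun d => ?_
    have hpr : (d.prod fun s e => (![PowerSeries.subst
        (MvPowerSeries.X 0 : MvPowerSeries (Fin 2) A) f, PowerSeries.subst
        (MvPowerSeries.X 1 : MvPowerSeries (Fin 2) A) f] s) ^ e) =
        PowerSeries.subst (MvPowerSeries.X 0 : MvPowerSeries (Fin 2) A) f ^ d 0 *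
        PowerSeries.subst (MvPowerSeries.X 1 : MvPowerSeries (Fin 2) A) f ^ d 1 := by
      rw [Finsupp.prod_fintype _ _ fun _ => pow_zero _, Fin.prod_univ_two]
      rfl
    rw [hpr]
    rcases Nat.eq_zero_or_pos (d 1) with hd | hd
    · have : PowerSeries.subst (MvPowerSeries.X 0 : MvPowerSeries (Fin 2) A) f ^ d 0 =
          PowerSeries.subst (MvPowerSeries.X 0 : MvPowerSeries (Fin 2) A) (f ^ d 0) := by
        rw [← PowerSeries.coe_substAlgHom hX0, map_pow]
      rw [hd, pow_zero, mul_one, this, coeff_subst_X0, smul_zero]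
      rw [he, ex_one]
      exact hQ.ne'
    · have hv : (MvPowerSeries.X 1 : MvPowerSeries (Fin 2) A) ^ (p ^ j + 1) ∣
          PowerSeries.subst (MvPowerSeries.X 1 : MvPowerSeries (Fin 2) A) f := by
        rw [hg, ← PowerSeries.coe_substAlgHom hX1, map_mul, map_pow,
          PowerSeries.substAlgHom_X hX1]
        exact dvd_mul_right _ _
      have hv' := dvd_mul_of_dvd_right (dvd_pow hv hd.ne')
        (PowerSeries.subst (MvPowerSeries.X 0 : MvPowerSeries (Fin 2) A) f ^ d 0)
      rw [MvPowerSeries.X_pow_dvd_iff.1 hv' e (by rw [he, ex_one]; exact Nat.lt_succ_self _),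
        smul_zero]
  have hmain := congrArg (MvPowerSeries.coeff e) hf.2
  rw [hL, hR] at hmain
  rcases mul_eq_zero.1 hmain with h | h
  · exact h
  · exfalso
    have h2 : ((n + 1 : ℕ) : A) = 0 := by
      by_contra hne
      exact pow_ne_zero _ hne h
    rw [CharP.cast_eq_zero_iff A p] at h2
    exact hpn h2

theorem hgt_hom {A : Type*} [CommRing A] [IsDomain A] (p : ℕ) [hp : Fact p.Prime] [CharP A p]
    {F G : FormalGroup A} {f : A⟦X⟧} (hf : IsHom F G f) {h : ℕ}
    (h1 : ∀ i, i < p ^ h → coeff i f = 0) (i : ℕ) (hi : ¬ p ^ h ∣ i) : coeff i f = 0 := by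
  have key : ∀ j ≤ h, ∀ i, ¬ p ^ j ∣ i → coeff i f = 0 := by
    intro j
    induction j with
    | zero => intro _ i hi; exact absurd (one_dvd i) (by simpa using hi)
    | succ j ih =>
      intro hj i hi
      exact hgt_step p hf j (ih (by omega))
        (h1 _ (Nat.pow_lt_pow_right hp.out.one_lt (by omega))) i hi
  exact key h le_rfl i hi

theorem hgt {A : Type*} [CommRing A] [IsDomain A] (p : ℕ) [Fact p.Prime] [CharP A p]
    {F : FormalGroup A} (hF : F.IsComm) {h : ℕ}
    (h1 : ∀ i, i < p ^ h → coeff i (mulSer F p) = 0) (i : ℕ) (hi : ¬ p ^ h ∣ i) :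
    coeff i (mulSer F p) = 0 :=
  hgt_hom p (Pool.Agent.H74.LA.mulSer_isHom hF p) h1 i hi

end Pool.Agent.H74.MO
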