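import Mathlib

/-!
# Monodromy chapter of CH-ALL (MP_38e74e_gt): the power series `W`

`[p]_F = W (x ^ q)`, `W = w_1 y + .. + w_p y ^ p + ..` with `v (w_1) = τ < 1`, `v (w_i) ≤ τ` for `i < p`
and `v (w_p) = 1`.
-/

open PowerSeries

namespace Pool.Agent.H74.MO

/-- integral coefficients, `v (w_1) = τ`, `v (w_i) ≤ τ` for `i < p`, `v (w_p) = 1` -/
structure WData {K : Type*} [Field K] {Γ₀ : Type*} [LinearOrderedCommGroupWithZero Γ₀]
    (v : Valuation K Γ₀) (p : ℕ) (τ : Γ₀) (W : K⟦X⟧) : Prop where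
  tau_ne : τ ≠ 0
  tau_lt : τ < 1
  zero : coeff 0 W = 0
  one : v (coeff 1 W) = τ
  int : ∀ i, v (coeff i W) ≤ 1
  small : ∀ i, i < p → v (coeff i W) ≤ τ
  unit : v (coeff p W) = 1

end Pool.Agent.H74.MO
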