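import Pool.Agent.H13.CA.Grp
import Pool.Agent.H6.LZ.Laz

/-!
PROOF.  `lead`: write `f - g = c x ^ i + ..` (`c = coeff i f - coeff i g`).  `f (G (x, y)) - g (G (x, y)) = c (x + y) ^ i + ..` and
`H (f x, f y) - H (g x, g y) = c x ^ i + c y ^ i + ..` modulo degree `i + 1`.  Compare the coefficients of `x ^ j y ^ (i - j)`.
`eq_of_not_pow`: `i = p ^ a b`, `p ∤ b`, `b ≥ 2`, `j = p ^ a`: `i.choose j ≡ b` modulo `p` (`LZ6.lucas`).
-/

open PowerSeries

namespace Pool.Agent.H74.MO

open Pool.Agent.H13.CA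

section aux

variable {R : Type*} [CommRing R]

/-- the coefficients up to `e` agree -/
private def Agr (e : Fin 2 →₀ ℕ) (A B : MvPowerSeries (Fin 2) R) : Prop :=
  ∀ e', e' ≤ e → MvPowerSeries.coeff e' A = MvPowerSeries.coeff e' B

private theorem agr_mul {e : Fin 2 →₀ ℕ} {A B A' B' : MvPowerSeries (Fin 2) R} (h : Agr e A B)
    (h' : Agr e A' B') : Agr e (A * A') (B * B') := by
  classical
  intro e' he
  rw [MvPowerSeries.coeff_mul, MvPowerSeries.coeff_mul]
  refine Finset.sum_congr rfl fun x hx => ?_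
  replace hx := Finset.HasAntidiagonal.mem_antidiagonal.1 hx
  rw [h x.1 (le_trans (by rw [← hx]; exact le_self_add) he),
    h' x.2 (le_trans (by rw [← hx]; exact le_add_self) he)]

private theorem agr_pow {e : Fin 2 →₀ ℕ} {A B : MvPowerSeries (Fin 2) R} (h : Agr e A B) (n : ℕ) :
    Agr e (A ^ n) (B ^ n) := by
  induction n with
  | zero =>
    intro e' _
    rw [pow_zero, pow_zero]
  | succ n ih =>
    rw [pow_succ, pow_succ]
    exact agr_mul ih h

/-- the degree -/
private def dg (e : Fin 2 →₀ ℕ) : ℕ := e 0 + e 1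

private theorem dg_add (a b : Fin 2 →₀ ℕ) : dg (a + b) = dg a + dg b := by
  unfold dg
  rw [Finsupp.add_apply, Finsupp.add_apply]
  ring

private theorem dg_zero {e : Fin 2 →₀ ℕ} (h : dg e = 0) : e = 0 := by
  unfold dg at h
  ext s
  fin_cases s
  · show e 0 = 0
    omega
  · show e 1 = 0
    omega

private theorem pow_low {A : MvPowerSeries (Fin 2) R} (h : MvPowerSeries.coeff 0 A = 0) (n : ℕ) :
    ∀ e : Fin 2 →₀ ℕ, dg e < n → MvPowerSeries.coeff e (A ^ n) = 0 := by
  classical
  induction n with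
  | zero =>
    intro e he
    omega
  | succ n ih =>
    intro e he
    rw [pow_succ, MvPowerSeries.coeff_mul]
    refine Finset.sum_eq_zero fun x hx => ?_
    replace hx := Finset.HasAntidiagonal.mem_antidiagonal.1 hx
    have h1 : dg x.1 + dg x.2 = dg e := by rw [← dg_add, hx]
    rcases Nat.lt_or_ge (dg x.1) n with h2 | h2
    · rw [ih x.1 h2, zero_mul]
    · have h3 : dg x.2 = 0 := by omega
      rw [dg_zero h3, h, mul_zero]

private theorem pow_lead {A B : MvPowerSeries (Fin 2) R} (hA : MvPowerSeries.coeff 0 A = 0)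
    (hB : MvPowerSeries.coeff 0 B = 0)
    (h : ∀ e : Fin 2 →₀ ℕ, dg e = 1 → MvPowerSeries.coeff e A = MvPowerSeries.coeff e B) (n : ℕ) :
    ∀ e : Fin 2 →₀ ℕ, dg e = n → MvPowerSeries.coeff e (A ^ n) = MvPowerSeries.coeff e (B ^ n) := by
  classical
  induction n with
  | zero =>
    intro e _
    rw [pow_zero, pow_zero]
  | succ n ih =>
    intro e he
    rw [pow_succ, pow_succ, MvPowerSeries.coeff_mul, MvPowerSeries.coeff_mul]
    refine Finset.sum_congr rfl fun x hx => ?_
    replace hx := Finset.HasAntidiagonal.mem_antidiagonal.1 hx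
    have h1 : dg x.1 + dg x.2 = dg e := by rw [← dg_add, hx]
    rcases Nat.lt_or_ge (dg x.1) n with h2 | h2
    · rw [pow_low hA n x.1 h2, pow_low hB n x.1 h2, zero_mul, zero_mul]
    · rcases Nat.eq_zero_or_pos (dg x.2) with h3 | h3
      · rw [dg_zero h3, hA, hB, mul_zero, mul_zero]
      · rw [ih x.1 (by omega), h x.2 (by omega)]

/-- the exponent `(j, l)` -/
private noncomputable def ex (j l : ℕ) : Fin 2 →₀ ℕ := Finsupp.single 0 j + Finsupp.single 1 l

private theorem ex_zero (j l : ℕ) : ex j l 0 = j := by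
  simp [ex]

private theorem ex_one (j l : ℕ) : ex j l 1 = l := by
  simp [ex]

private theorem dg_ex (j l : ℕ) : dg (ex j l) = j + l := by
  unfold dg
  rw [ex_zero, ex_one]

private theorem dg_one {e : Fin 2 →₀ ℕ} (h : dg e = 1) :
    e = Finsupp.single 0 1 ∨ e = Finsupp.single 1 1 := by
  unfold dg at h
  rcases Nat.eq_zero_or_pos (e 0) with h0 | h0
  · right
    ext s
    fin_cases s
    · show e 0 = _
      rw [h0]
      simp
    · show e 1 = _
      simp
      omega
  · left
    ext s
    fin_cases s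
    · show e 0 = _
      simp
      omega
    · show e 1 = _
      simp
      omega

private theorem bin_lead (i j : ℕ) (hj : j ≤ i) :
    MvPowerSeries.coeff (ex j (i - j))
      ((MvPowerSeries.X 0 + MvPowerSeries.X 1 : MvPowerSeries (Fin 2) R) ^ i) = (i.choose j : R) := by
  classical
  rw [add_pow, map_sum, Finset.sum_eq_single j]
  · rw [MvPowerSeries.X_pow_eq, MvPowerSeries.X_pow_eq, MvPowerSeries.monomial_mul_monomial,
      mul_comm, ← map_natCast (MvPowerSeries.C (σ := Fin 2) (R := R)), MvPowerSeries.coeff_C_mul]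
    have h1 : (Finsupp.single (0 : Fin 2) j + Finsupp.single (1 : Fin 2) (i - j)) = ex j (i - j) := rfl
    rw [h1, MvPowerSeries.coeff_monomial_same]
    simp
  · intro m hm hne
    rw [MvPowerSeries.X_pow_eq, MvPowerSeries.X_pow_eq, MvPowerSeries.monomial_mul_monomial,
      mul_comm, ← map_natCast (MvPowerSeries.C (σ := Fin 2) (R := R)), MvPowerSeries.coeff_C_mul,
      MvPowerSeries.coeff_monomial, if_neg, mul_zero]
    intro h1
    have h2 := congrArg (fun e : Fin 2 →₀ ℕ => e 0) h1
    simp [ex] at h2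
    exact hne h2.symm
  · intro h
    exact absurd (Finset.mem_range.2 (by omega)) h

private theorem agr_X (s : Fin 2) {f g : R⟦X⟧} {i : ℕ} (h : ∀ j < i, coeff j f = coeff j g)
    {e : Fin 2 →₀ ℕ} (he : e s < i) :
    Agr e (PowerSeries.subst (MvPowerSeries.X s : MvPowerSeries (Fin 2) R) f)
      (PowerSeries.subst (MvPowerSeries.X s : MvPowerSeries (Fin 2) R) g) := by
  classical
  intro e' hle
  rw [PowerSeries.coeff_subst (PowerSeries.HasSubst.X s), PowerSeries.coeff_subst (PowerSeries.HasSubst.X s)]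
  apply finsum_congr
  intro n
  rcases Nat.lt_or_ge n i with hn | hn
  · rw [h n hn]
  · have h1 : MvPowerSeries.coeff e' ((MvPowerSeries.X s : MvPowerSeries (Fin 2) R) ^ n) = 0 := by
      rw [MvPowerSeries.coeff_X_pow, if_neg]
      intro h2
      have h3 : e' s = n := by rw [h2]; simp
      have h4 : e' s ≤ e s := hle s
      omega
    rw [h1, smul_zero, smul_zero]

private theorem sub_lead (G : FormalGroup R) (f : R⟦X⟧) (e : Fin 2 →₀ ℕ) :
    MvPowerSeries.coeff e (PowerSeries.subst G.toPowerSeries f) =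
      ∑ n ∈ Finset.range (dg e + 1), coeff n f * MvPowerSeries.coeff e (G.toPowerSeries ^ n) := by
  rw [PowerSeries.coeff_subst (hs_F G), finsum_eq_sum_of_support_subset]
  · rfl
  · intro n hn
    rw [Finset.coe_range, Set.mem_Iio]
    by_contra hc
    apply hn
    show coeff n f • MvPowerSeries.coeff e (G.toPowerSeries ^ n) = 0
    rw [pow_low (by rw [MvPowerSeries.coeff_zero_eq_constantCoeff_apply]; exact G.zero_constantCoeff) n e
      (by omega), smul_zero]

end aux

theorem lead {R : Type*} [CommRing R] {G H : FormalGroup R} {f g : R⟦X⟧} (hf : IsHom G H f)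
    (hg : IsHom G H g) {i : ℕ} (h : ∀ j < i, coeff j f = coeff j g) {j : ℕ} (hj : 0 < j)
    (hji : j < i) : (i.choose j : R) * (coeff i f - coeff i g) = 0 := by
  classical
  have hdg : dg (ex j (i - j)) = i := by
    rw [dg_ex]
    omega
  -- the right hand sides agree
  have hR : MvPowerSeries.coeff (ex j (i - j)) (MvPowerSeries.subst
      ![PowerSeries.subst (MvPowerSeries.X 0 : MvPowerSeries (Fin 2) R) f,
        PowerSeries.subst (MvPowerSeries.X 1 : MvPowerSeries (Fin 2) R) f] H.toPowerSeries) =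
      MvPowerSeries.coeff (ex j (i - j)) (MvPowerSeries.subst
      ![PowerSeries.subst (MvPowerSeries.X 0 : MvPowerSeries (Fin 2) R) g,
        PowerSeries.subst (MvPowerSeries.X 1 : MvPowerSeries (Fin 2) R) g] H.toPowerSeries) := by
    rw [MvPowerSeries.coeff_subst (hasSubst_pair (hs_subst (PowerSeries.HasSubst.X 0) hf.1)
        (hs_subst (PowerSeries.HasSubst.X 1) hf.1)),
      MvPowerSeries.coeff_subst (hasSubst_pair (hs_subst (PowerSeries.HasSubst.X 0) hg.1)
        (hs_subst (PowerSeries.HasSubst.X 1) hg.1))]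
    apply finsum_congr
    intro d
    congr 1
    have h0 := agr_pow (agr_X 0 h (e := ex j (i - j)) (by rw [ex_zero]; omega)) (d 0)
    have h1 := agr_pow (agr_X 1 h (e := ex j (i - j)) (by rw [ex_one]; omega)) (d 1)
    have h2 := agr_mul h0 h1 (ex j (i - j)) le_rfl
    rw [Finsupp.prod_fintype _ _ (fun s => pow_zero _), Finsupp.prod_fintype _ _ (fun s => pow_zero _),
      Fin.prod_univ_two, Fin.prod_univ_two]
    exact h2
  have hL : MvPowerSeries.coeff (ex j (i - j)) (PowerSeries.subst G.toPowerSeries f) =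
      MvPowerSeries.coeff (ex j (i - j)) (PowerSeries.subst G.toPowerSeries g) := by
    rw [hf.2, hg.2, hR]
  rw [sub_lead, sub_lead, hdg, Finset.sum_range_succ, Finset.sum_range_succ] at hL
  have hs : ∑ n ∈ Finset.range i, coeff n f * MvPowerSeries.coeff (ex j (i - j)) (G.toPowerSeries ^ n) =
      ∑ n ∈ Finset.range i, coeff n g * MvPowerSeries.coeff (ex j (i - j)) (G.toPowerSeries ^ n) :=
    Finset.sum_congr rfl fun n hn => by rw [h n (Finset.mem_range.1 hn)]
  rw [hs] at hL
  have hc : MvPowerSeries.coeff (ex j (i - j)) (G.toPowerSeries ^ i) = (i.choose j : R) := by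
    rw [pow_lead (B := MvPowerSeries.X 0 + MvPowerSeries.X 1) _ _ _ i _ hdg, bin_lead i j hji.le]
    · rw [MvPowerSeries.coeff_zero_eq_constantCoeff_apply]
      exact G.zero_constantCoeff
    · simp
    · intro e he
      rcases dg_one he with rfl | rfl
      · rw [G.lin_coeff_X, map_add, MvPowerSeries.coeff_X, MvPowerSeries.coeff_X]
        simp
        intro hh
        exact absurd (congrArg (fun e : Fin 2 →₀ ℕ => e 0) hh) (by simp)
      · rw [G.lin_coeff_Y, map_add, MvPowerSeries.coeff_X, MvPowerSeries.coeff_X]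
        simp
        intro hh
        exact absurd (congrArg (fun e : Fin 2 →₀ ℕ => e 0) hh) (by simp)
  rw [hc] at hL
  have h3 := add_left_cancel hL
  rw [mul_sub, mul_comm, h3, mul_comm, sub_self]

private theorem ch_pow (p : ℕ) [Fact p.Prime] (b : ℕ) : ∀ a : ℕ, (p ^ a * b).choose (p ^ a) ≡ b [MOD p] := by
  intro a
  induction a with
  | zero => simp [Nat.ModEq]
  | succ a ih =>
    have h1 := LZ6.lucas (p := p) (p ^ a * b) (p ^ a)
    have h2 : p ^ (a + 1) * b = p * (p ^ a * b) := by ring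
    have h3 : p ^ (a + 1) = p * p ^ a := by ring
    rw [h2, h3]
    exact h1.trans ih

theorem eq_of_not_pow {L : Type*} [Field L] (p : ℕ) [Fact p.Prime] [CharP L p]
    {G H : FormalGroup L} {f g : L⟦X⟧} (hf : IsHom G H f) (hg : IsHom G H g) {i : ℕ} (hi : 1 ≤ i)
    (h : ∀ j < i, coeff j f = coeff j g) (hp : ¬ ∃ a : ℕ, i = p ^ a) :
    coeff i f = coeff i g := by
  have hp0 : p.Prime := Fact.out
  obtain ⟨a, b, hb, hab⟩ := Nat.exists_eq_pow_mul_and_not_dvd (n := i) (by omega) p hp0.ne_one
  have hb1 : b ≠ 1 := by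
    intro h1
    apply hp
    exact ⟨a, by rw [hab, h1, mul_one]⟩
  have hb0 : b ≠ 0 := by
    intro h0
    apply hb
    rw [h0]
    exact dvd_zero p
  have hpa : 0 < p ^ a := Nat.pow_pos hp0.pos
  have h1 := lead hf hg h hpa (by rw [hab]; nlinarith [show 2 ≤ b by omega])
  rcases mul_eq_zero.1 h1 with h2 | h2
  · exfalso
    rw [hab] at h2
    have h3 := (CharP.cast_eq_zero_iff L p _).1 h2
    have h4 := ch_pow p b a
    have h5 : b ≡ 0 [MOD p] := h4.symm.trans ((Nat.modEq_zero_iff_dvd).2 h3)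
    exact hb ((Nat.modEq_zero_iff_dvd).1 h5)
  · exact sub_eq_zero.1 h2

end Pool.Agent.H74.MO
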