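import Pool.Agent.H74.MO.Defs

/-!
Coefficients of the powers of `W`.  Induction on `i`, `W ^ (i + 1) = W * W ^ i`, `coeff_mul`.
`pow_small`: in `w_a * [W ^ i]_b`, `a + b = j < p (i + 1)`: `a < p` or `b < p i`.
`pow_unit`: in `w_a * [W ^ i]_b`, `a + b = p (i + 1)`, the term `(p, p i)` is a unit, the others are `≤ τ < 1`
(`Valuation.map_add_eq_of_lt_left` and friends, `Valuation.map_sum_le`).
`coeff_pow_self`: `X ∣ W`.
-/

open PowerSeries

namespace Pool.Agent.H74.MO

variable {K : Type*} [Field K] {Γ₀ : Type*} [LinearOrderedCommGroupWithZero Γ₀]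
  {v : Valuation K Γ₀} {p : ℕ} {τ : Γ₀} {W : K⟦X⟧}

theorem pow_int (h : WData v p τ W) (i j : ℕ) : v (coeff j (W ^ i)) ≤ 1 := by
  induction i generalizing j with
  | zero =>
    rw [pow_zero, coeff_one]
    split_ifs with h1
    · rw [map_one]
    · rw [map_zero]
      exact zero_le_one
  | succ i ih =>
    rw [pow_succ', coeff_mul]
    apply Valuation.map_sum_le
    intro x _
    rw [map_mul]
    exact mul_le_one' (h.int x.1) (ih x.2)

private theorem mul_small {τ : Γ₀} {a b : K} (ha : v a ≤ 1) (hb : v b ≤ τ) :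
    v (a * b) ≤ τ := by
  rw [map_mul]
  calc v a * v b ≤ 1 * τ := mul_le_mul' ha hb
    _ = τ := one_mul τ

theorem pow_small (h : WData v p τ W) (i j : ℕ) (hij : j < p * i) : v (coeff j (W ^ i)) ≤ τ := by
  induction i generalizing j with
  | zero => omega
  | succ i ih =>
    rw [pow_succ', coeff_mul]
    apply Valuation.map_sum_le
    intro x hx
    have hx := Finset.HasAntidiagonal.mem_antidiagonal.mp hx
    rcases lt_or_ge x.1 p with h1 | h1
    · rw [mul_comm]
      exact mul_small (pow_int h i x.2) (h.small x.1 h1)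
    · have h2 : x.2 < p * i := by
        have : p * (i + 1) = p * i + p := by ring
        omega
      exact mul_small (h.int x.1) (ih x.2 h2)

theorem pow_unit (h : WData v p τ W) (i : ℕ) : v (coeff (p * i) (W ^ i)) = 1 := by
  induction i with
  | zero => rw [pow_zero, mul_zero, coeff_zero_one, map_one]
  | succ i ih =>
    rw [pow_succ', coeff_mul]
    have hm : ((p, p * i) : ℕ × ℕ) ∈ Finset.HasAntidiagonal.antidiagonal (p * (i + 1)) := by
      rw [Finset.HasAntidiagonal.mem_antidiagonal]
      ring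
    rw [← Finset.add_sum_erase _ _ hm]
    have h1 : v (coeff p W * coeff (p * i) (W ^ i)) = 1 := by
      rw [map_mul, h.unit, ih, one_mul]
    have h2 : v (∑ x ∈ (Finset.HasAntidiagonal.antidiagonal (p * (i + 1))).erase (p, p * i),
        coeff x.1 W * coeff x.2 (W ^ i)) ≤ τ := by
      apply Valuation.map_sum_le
      intro x hx
      obtain ⟨hne, hx⟩ := Finset.mem_erase.mp hx
      have hx := Finset.HasAntidiagonal.mem_antidiagonal.mp hx
      have h3 : p * (i + 1) = p * i + p := by ring
      rcases lt_trichotomy x.1 p with h4 | h4 | h4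
      · rw [mul_comm]
        exact mul_small (pow_int h i x.2) (h.small x.1 h4)
      · exfalso
        apply hne
        apply Prod.ext
        · exact h4
        · change x.2 = p * i
          omega
      · exact mul_small (h.int x.1) (pow_small h i x.2 (by omega))
    rw [Valuation.map_add_eq_of_lt_left]
    · exact h1
    · change v _ < v (coeff p W * coeff (p * i) (W ^ i))
      rw [h1]
      exact lt_of_le_of_lt h2 h.tau_lt

theorem coeff_pow_self {R : Type*} [CommRing R] {W : R⟦X⟧} (h : coeff 0 W = 0) (i : ℕ) :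
    coeff i (W ^ i) = coeff 1 W ^ i := by
  obtain ⟨Y, hY⟩ : X ∣ W := by
    rw [X_dvd_iff, ← coeff_zero_eq_constantCoeff_apply]
    exact h
  have h1 : coeff 1 W = constantCoeff Y := by
    have := coeff_succ_X_mul 0 Y
    rw [zero_add] at this
    rw [hY, this, coeff_zero_eq_constantCoeff_apply]
  have h2 := coeff_X_pow_mul (Y ^ i) i 0
  rw [zero_add] at h2
  rw [hY, mul_pow, h2, ← hY, h1, coeff_zero_eq_constantCoeff_apply, map_pow]

theorem coeff_pow_lt {R : Type*} [CommRing R] {W : R⟦X⟧} (h : coeff 0 W = 0) {i j : ℕ}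
    (hij : j < i) : coeff j (W ^ i) = 0 := by
  obtain ⟨Y, hY⟩ : X ∣ W := by
    rw [X_dvd_iff, ← coeff_zero_eq_constantCoeff_apply]
    exact h
  have h1 : X ^ i ∣ W ^ i := pow_dvd_pow_of_dvd ⟨Y, hY⟩ i
  rw [X_pow_dvd_iff] at h1
  exact h1 j hij

end Pool.Agent.H74.MO
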